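import Mathlib

/-!
The notions of the problem: dp-minimal theories, global types, definability of types over a
model, dividing and forking over a model.
-/

namespace Pool.Agent.DpM

open FirstOrder Language

universe u w

/-- `T` is dp-minimal (models in the universe `u`): there are no formulas `φ(x;y)`, `ψ(x;z)` with
`x` a single variable and no sequences `a_i`, `c_j` of tuples in a model `N` of `T` such that for
all `i`, `j` the set
`{φ(x;a_i)} ∪ {¬ φ(x;a_k) : k ≠ i} ∪ {ψ(x;c_j)} ∪ {¬ ψ(x;c_l) : l ≠ j}`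
is consistent, that is, finitely satisfiable in `N`. -/
def DpMinimal {L : FirstOrder.Language.{0, 0}} (T : L.Theory) : Prop :=
  ∀ (N : Type u) [L.Structure N] [Nonempty N] [N ⊨ T] (m m' : ℕ)
    (φ : L.Formula (Fin 1 ⊕ Fin m)) (ψ : L.Formula (Fin 1 ⊕ Fin m'))
    (a : ℕ → Fin m → N) (c : ℕ → Fin m' → N),
    ¬ ∀ i j : ℕ, ∀ s : Finset ℕ, ∃ x : Fin 1 → N,
      φ.Realize (Sum.elim x (a i)) ∧ (∀ k ∈ s, k ≠ i → ¬ φ.Realize (Sum.elim x (a k))) ∧
      ψ.Realize (Sum.elim x (c j)) ∧ (∀ l ∈ s, l ≠ j → ¬ ψ.Realize (Sum.elim x (c l)))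

section
variable (L : FirstOrder.Language.{0, 0}) (U : Type u) [L.Structure U]

/-- formulas `φ(x;b)` with parameters `b` in `U`, where `x` has length `k` -/
structure PForm (k : ℕ) where
  /-- length of the parameter tuple -/
  m : ℕ
  /-- the formula `φ(x;y)` -/
  φ : L.Formula (Fin k ⊕ Fin m)
  /-- the parameters `b` -/
  b : Fin m → U

variable {L U}

/-- satisfaction of `φ(x;b)` in `U` -/
def PForm.Holds {k : ℕ} (θ : PForm L U k) (x : Fin k → U) : Prop :=
  θ.φ.Realize (Sum.elim x θ.b)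

/-- negation -/
noncomputable def PForm.neg {k : ℕ} (θ : PForm L U k) : PForm L U k := ⟨θ.m, θ.φ.not, θ.b⟩

/-- `p` is a global type in `k` variables: a consistent (finitely satisfiable in `U`) and complete
set of formulas with parameters in `U` -/
structure IsGlobalType {k : ℕ} (p : Set (PForm L U k)) : Prop where
  consistent : ∀ s : Set (PForm L U k), s ⊆ p → s.Finite → ∃ x : Fin k → U, ∀ θ ∈ s, θ.Holds x
  complete : ∀ θ : PForm L U k, θ ∈ p ∨ θ.neg ∈ p

variable {M : Type w} [L.Structure M]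

/-- `p` is definable over (the image under `j` of) `M`: for every formula `χ(x;y)` there is a
formula `dχ(y)` with parameters in `M` such that for all `e` in `U`, `χ(x;e) ∈ p` iff `dχ(e)`
holds in `U` -/
def DefinableOver (j : M ↪ₑ[L] U) {k : ℕ} (p : Set (PForm L U k)) : Prop :=
  ∀ (m : ℕ) (χ : L.Formula (Fin k ⊕ Fin m)),
    ∃ (r : ℕ) (dχ : L.Formula (Fin m ⊕ Fin r)) (c : Fin r → M),
      ∀ e : Fin m → U, (⟨m, χ, e⟩ : PForm L U k) ∈ p ↔ dχ.Realize (Sum.elim e (j ∘ c))

/-- the tuples `b` and `b'` have the same type over `M` -/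
def SameType (j : M ↪ₑ[L] U) {m : ℕ} (b b' : Fin m → U) : Prop :=
  ∀ (r : ℕ) (η : L.Formula (Fin m ⊕ Fin r)) (c : Fin r → M),
    η.Realize (Sum.elim b (j ∘ c)) ↔ η.Realize (Sum.elim b' (j ∘ c))

/-- `χ(x;d)` divides over `M`: there are `q` and a sequence `d_i` of realizations of the type of
`d` over `M` such that the set `{χ(x;d_i) : i}` is `q`-inconsistent -/
def Divides (j : M ↪ₑ[L] U) {k : ℕ} (θ : PForm L U k) : Prop :=
  ∃ (q : ℕ) (d : ℕ → Fin θ.m → U), (∀ i, SameType j (d i) θ.b) ∧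
    ∀ s : Finset ℕ, s.card = q → ¬ ∃ x : Fin k → U, ∀ i ∈ s, θ.φ.Realize (Sum.elim x (d i))

/-- `φ(x;b)` forks over `M`: it implies a finite disjunction of formulas each of which divides
over `M` -/
def Forks (j : M ↪ₑ[L] U) {k : ℕ} (θ : PForm L U k) : Prop :=
  ∃ (n : ℕ) (χ : Fin n → PForm L U k), (∀ i, Divides j (χ i)) ∧
    ∀ x : Fin k → U, θ.Holds x → ∃ i, (χ i).Holds x

end

end Pool.Agent.DpM
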