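import Mathlib

/-!
Position lemma for linear orders with bounded comparisons: given finitely many extended natural
numbers and copies of them with the same comparisons up to `2 N + 2`, every new number can be
matched by a new number with the same comparisons up to `N`.
-/

namespace Pool.Agent.DpM

/-- the pairs `(u, u')` and `(w, w')` have the same comparisons up to `N` -/
def Cmp (N : ℕ) (u u' w w' : ℕ∞) : Prop :=
  ∀ c : ℕ, c ≤ N → ((u + c ≤ w ↔ u' + c ≤ w') ∧ (w + c ≤ u ↔ w' + c ≤ u'))

lemma Cmp.symm {N : ℕ} {u u' w w' : ℕ∞} (h : Cmp N u u' w w') : Cmp N w w' u u' :=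
  fun c hc => ⟨(h c hc).2, (h c hc).1⟩

lemma Cmp.swap {N : ℕ} {u u' w w' : ℕ∞} (h : Cmp N u u' w w') : Cmp N u' u w' w :=
  fun c hc => ⟨(h c hc).1.symm, (h c hc).2.symm⟩

lemma Cmp.mono {N N' : ℕ} (hN : N ≤ N') {u u' w w' : ℕ∞} (h : Cmp N' u u' w w') :
    Cmp N u u' w w' := fun c hc => h c (hc.trans hN)

lemma Cmp.eq {N : ℕ} {u u' w w' : ℕ∞} (h : Cmp N u u' w w') (e : u = w) : u' = w' := by
  have h0 := h 0 (Nat.zero_le _)
  simp only [Nat.cast_zero, add_zero] at h0
  exact le_antisymm (h0.1.1 e.le) (h0.2.1 e.ge)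

lemma Cmp.le {N : ℕ} {u u' w w' : ℕ∞} (h : Cmp N u u' w w') : u ≤ w ↔ u' ≤ w' := by
  have h0 := h 0 (Nat.zero_le _)
  simp only [Nat.cast_zero, add_zero] at h0
  exact h0.1

lemma Cmp.ge {N : ℕ} {u u' w w' : ℕ∞} (h : Cmp N u u' w w') : w ≤ u ↔ w' ≤ u' := by
  have h0 := h 0 (Nat.zero_le _)
  simp only [Nat.cast_zero, add_zero] at h0
  exact h0.2

lemma Cmp.lt {N : ℕ} {u u' w w' : ℕ∞} (h : Cmp N u u' w w') : u < w ↔ u' < w' := by
  rw [← not_le, ← not_le, h.ge]

lemma Cmp.gt {N : ℕ} {u u' w w' : ℕ∞} (h : Cmp N u u' w w') : w < u ↔ w' < u' := by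
  rw [← not_le, ← not_le, h.le]

lemma Cmp.self_coe (N : ℕ) (u u' : ℕ) : Cmp N (u : ℕ∞) u' u u' := by
  intro c _
  norm_cast
  constructor <;> constructor <;> intro h <;> omega

lemma pos_lemma {σ : Type*} [Finite σ] {N : ℕ} (u u' : σ → ℕ∞) (z : σ)
    (hz : u z = 0) (hz' : u' z = 0)
    (H : ∀ p q, Cmp (2 * N + 2) (u p) (u' p) (u q) (u' q)) (t : ℕ) :
    ∃ t' : ℕ, ∀ p, Cmp N (u p) (u' p) t t' := by
  classical
  cases nonempty_fintype σ
  by_cases c1 : ∃ p, ∃ d : ℕ, d ≤ N ∧ u p + d = t
  · obtain ⟨p, d, hd, hp⟩ := c1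
    have hfin : u' p ≠ ⊤ := by
      intro h
      have h1 := (H p p 1 (by omega)).1
      rw [h] at h1
      have h2 := h1.2 (by simp)
      generalize u p = v at *
      clear h1 H h hz hz'
      enat_to_nat
      omega
    obtain ⟨m, hm⟩ := ENat.ne_top_iff_exists.mp hfin
    obtain ⟨l, hl⟩ : ∃ l : ℕ, (l : ℕ∞) = u p := by
      apply ENat.ne_top_iff_exists.mp
      intro h
      rw [h] at hp
      simp at hp
    refine ⟨m + d, fun r c hc => ?_⟩
    rw [← hl] at hp
    norm_cast at hp
    have e1 := H p r (d + c) (by omega)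
    have e2 := H p r (c - d) (by omega)
    have e3 := H p r (d - c + 1) (by omega)
    rw [← hm, ← hl] at e1 e2 e3
    generalize u r = v at *
    generalize u' r = v' at *
    subst hp
    clear H hz hz' hfin
    constructor
    · rcases le_or_gt d c with hdc | hdc
      · obtain ⟨k, rfl⟩ := Nat.exists_eq_add_of_le hdc
        have e4 := e2.2
        have : d + k - d = k := by omega
        rw [this] at e4
        clear e1 e2 e3 this
        cases v using ENat.recTopCoe <;> cases v' using ENat.recTopCoe <;>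
          simp at e4 ⊢ <;> norm_cast at e4 ⊢ <;> omega
      · obtain ⟨k, rfl⟩ := Nat.exists_eq_add_of_lt hdc
        have e4 := e3.1
        have : c + k + 1 - c + 1 = k + 2 := by omega
        rw [this] at e4
        clear e1 e2 e3 this
        cases v using ENat.recTopCoe <;> cases v' using ENat.recTopCoe <;>
          simp at e4 ⊢ <;> norm_cast at e4 ⊢ <;> omega
    · have e4 := e1.1
      clear e1 e2 e3
      cases v using ENat.recTopCoe <;> cases v' using ENat.recTopCoe <;>
          simp at e4 ⊢ <;> norm_cast at e4 ⊢ <;> omega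
  by_cases c2 : ∃ p, ∃ d : ℕ, d ≤ N ∧ t + d = u p
  · obtain ⟨p, d, hd, hp⟩ := c2
    have hfin : u' p ≠ ⊤ := by
      intro h
      have h1 := (H p p 1 (by omega)).1
      rw [h, ← hp] at h1
      have h2 := h1.2 (by simp)
      norm_cast at h2
      omega
    obtain ⟨m, hm⟩ := ENat.ne_top_iff_exists.mp hfin
    have hdm : d ≤ m := by
      have h1 := (H z p d (by omega)).1
      rw [hz, hz', ← hp, ← hm] at h1
      norm_cast at h1
      omega
    obtain ⟨m', rfl⟩ := Nat.exists_eq_add_of_le hdm
    refine ⟨m', fun r c hc => ?_⟩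
    have e1 := H p r (c + d) (by omega)
    have e2 := H p r (c - d) (by omega)
    have e3 := H p r (d - c + 1) (by omega)
    rw [← hm, ← hp] at e1 e2 e3
    generalize u r = v at *
    generalize u' r = v' at *
    clear H hz hz' hfin
    constructor
    · have e4 := e1.2
      clear e1 e2 e3
      cases v using ENat.recTopCoe <;> cases v' using ENat.recTopCoe <;>
          simp at e4 ⊢ <;> norm_cast at e4 ⊢ <;> omega
    · rcases le_or_gt d c with hdc | hdc
      · obtain ⟨k, rfl⟩ := Nat.exists_eq_add_of_le hdc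
        have e4 := e2.1
        have : d + k - d = k := by omega
        rw [this] at e4
        clear e1 e2 e3 this
        cases v using ENat.recTopCoe <;> cases v' using ENat.recTopCoe <;>
          simp at e4 ⊢ <;> norm_cast at e4 ⊢ <;> omega
      · obtain ⟨k, rfl⟩ := Nat.exists_eq_add_of_lt hdc
        have e4 := e3.2
        have : c + k + 1 - c + 1 = k + 2 := by omega
        rw [this] at e4
        clear e1 e2 e3 this
        cases v using ENat.recTopCoe <;> cases v' using ENat.recTopCoe <;>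
          simp at e4 ⊢ <;> norm_cast at e4 ⊢ <;> omega
  -- third case
  have hor : ∀ r, (∃ m : ℕ, u r = m ∧ m + N + 1 ≤ t) ∨ (t : ℕ∞) + N + 1 ≤ u r := by
    intro r
    rcases eq_or_ne (u r) ⊤ with h | h
    · right; rw [h]; exact le_top
    · obtain ⟨m, hm⟩ := ENat.ne_top_iff_exists.mp h
      rcases le_or_gt m t with hmt | hmt
      · left
        refine ⟨m, hm.symm, ?_⟩
        by_contra hcon
        exact c1 ⟨r, t - m, by omega, by rw [← hm]; norm_cast; omega⟩
      · right
        by_contra hcon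
        rw [← hm] at hcon
        norm_cast at hcon
        exact c2 ⟨r, m - t, by omega, by rw [← hm]; norm_cast; omega⟩
  obtain ⟨p, hp, hpmax⟩ := Finset.exists_max_image
    ((Finset.univ : Finset σ).filter (fun r => u r ≤ t)) u
    ⟨z, by simp [hz]⟩
  simp only [Finset.mem_filter, Finset.mem_univ, true_and] at hp hpmax
  obtain ⟨l, hl, hlt⟩ : ∃ m : ℕ, u p = m ∧ m + N + 1 ≤ t := by
    rcases hor p with h | h
    · exact h
    · exfalso
      have := h.trans hp
      norm_cast at this
      omega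
  have hfin : u' p ≠ ⊤ := by
    intro h
    have h1 := (H p p 1 (by omega)).1
    rw [h, hl] at h1
    have h2 := h1.2 (by simp)
    norm_cast at h2
    omega
  obtain ⟨m, hm⟩ := ENat.ne_top_iff_exists.mp hfin
  refine ⟨m + N + 1, fun r c hc => ?_⟩
  rcases hor r with ⟨k, hk, hkt⟩ | h
  · have h1 : u r ≤ u p := hpmax r (by rw [hk]; norm_cast; omega)
    have h2 := (H r p).le.1 h1
    rw [← hm] at h2
    rw [hk]
    generalize u' r = v' at *
    clear H hz hz' hfin hor hpmax
    cases v' using ENat.recTopCoe <;> simp at h2 ⊢ <;> norm_cast at h2 ⊢ <;> omega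
  · have h1 : u p + (2 * N + 2 : ℕ) ≤ u r := by
      refine le_trans ?_ h
      rw [hl]
      norm_cast
      omega
    have h2 := (H p r (2 * N + 2) le_rfl).1.1 h1
    rw [← hm] at h2
    rw [hl] at h1
    generalize u' r = v' at *
    generalize u r = v at *
    clear H hz hz' hfin hor hpmax hp
    cases v using ENat.recTopCoe <;> cases v' using ENat.recTopCoe <;>
      simp at h h2 ⊢ <;> norm_cast at h h2 ⊢ <;> omega

end Pool.Agent.DpM
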