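import Mathlib
import Pool.Agent.DpM.Pos

/-!
The torsor tree: finite 0-1-words with their length, combinations of words and the values
(extended natural numbers) attached to a tuple of words.
-/

namespace Pool.Agent.DpM

open Finset

/-- words of length `h` over the field with two elements, padded by zeros -/
@[ext]
structure Y where
  h : ℕ
  w : ℕ → ZMod 2
  supp : ∀ j, h ≤ j → w j = 0

section
variable {ι : Type} [Fintype ι]

/-- the combination `ε` of the family `a` vanishes up to `s`, and all the words occurring in it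
have length at least `s` -/
def Ge (a : ι → Y) (ε : ι → ZMod 2) (s : ℕ) : Prop :=
  (∀ i, ε i ≠ 0 → s ≤ (a i).h) ∧ ∀ j < s, ∑ i, ε i * (a i).w j = 0

lemma Ge.zero (a : ι → Y) (ε : ι → ZMod 2) : Ge a ε 0 :=
  ⟨fun _ _ => Nat.zero_le _, fun j hj => absurd hj (Nat.not_lt_zero j)⟩

lemma Ge.anti {a : ι → Y} {ε : ι → ZMod 2} {s s' : ℕ} (h : Ge a ε s) (hs : s' ≤ s) : Ge a ε s' :=
  ⟨fun i hi => hs.trans (h.1 i hi), fun j hj => h.2 j (lt_of_lt_of_le hj hs)⟩

/-- the value of a combination -/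
noncomputable def v (a : ι → Y) (ε : ι → ZMod 2) : ℕ∞ := ⨆ s : {s : ℕ // Ge a ε s}, (s.1 : ℕ∞)

lemma le_v {a : ι → Y} {ε : ι → ZMod 2} {s : ℕ} : (s : ℕ∞) ≤ v a ε ↔ Ge a ε s := by
  constructor
  · intro h
    by_contra hc
    have h1 : ∀ s', Ge a ε s' → s' < s := fun s' hs' => by
      by_contra h2
      exact hc (hs'.anti (not_lt.mp h2))
    have h0 : 0 < s := h1 0 (Ge.zero a ε)
    have h2 : v a ε ≤ ((s - 1 : ℕ) : ℕ∞) := by
      apply iSup_le
      rintro ⟨s', hs'⟩
      have := h1 s' hs'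
      simp only
      norm_cast
      omega
    have h3 := h.trans h2
    norm_cast at h3
    omega
  · intro h
    exact le_iSup (fun s : {s : ℕ // Ge a ε s} => (s.1 : ℕ∞)) ⟨s, h⟩

lemma enat_ext {x y : ℕ∞} (h : ∀ n : ℕ, (n : ℕ∞) ≤ x ↔ (n : ℕ∞) ≤ y) : x = y := by
  apply le_antisymm
  · exact ENat.forall_natCast_le_iff_le.mp fun n hn => (h n).1 hn
  · exact ENat.forall_natCast_le_iff_le.mp fun n hn => (h n).2 hn

/-- total coefficient at height `s` -/
def tot (a : ι → Y) (ε : ι → ZMod 2) (s : ℕ) : ZMod 2 := ∑ i, if (a i).h = s then ε i else 0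

/-- valid (even) combinations -/
def Valid (a : ι → Y) (ε : ι → ZMod 2) : Prop := ∀ s, tot a ε s = 0

/-- combinations which are odd exactly at height `t` -/
def Odd (a : ι → Y) (t : ℕ) (ε : ι → ZMod 2) : Prop := ∀ s, tot a ε s = if s = t then 1 else 0

end

/-- symbols -/
inductive Sym (ι : Type) : Type
  | zero : Sym ι
  | ht (i : ι) : Sym ι
  | comb (ε : ι → ZMod 2) : Sym ι

instance (ι : Type) [Finite ι] : Finite (Sym ι) := by
  have : Finite (Unit ⊕ ι ⊕ (ι → ZMod 2)) := inferInstance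
  refine Finite.of_surjective
    (fun x : Unit ⊕ ι ⊕ (ι → ZMod 2) => match x with
      | Sum.inl _ => Sym.zero
      | Sum.inr (Sum.inl i) => Sym.ht i
      | Sum.inr (Sum.inr ε) => Sym.comb ε) ?_
  rintro (_ | i | ε)
  · exact ⟨Sum.inl (), rfl⟩
  · exact ⟨Sum.inr (Sum.inl i), rfl⟩
  · exact ⟨Sum.inr (Sum.inr ε), rfl⟩

section
variable {ι : Type} [Fintype ι]

/-- validity of symbols -/
def Ok (a : ι → Y) : Sym ι → Prop
  | .zero => True
  | .ht _ => True
  | .comb ε => Valid a ε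

/-- values of symbols -/
noncomputable def val (a : ι → Y) : Sym ι → ℕ∞
  | .zero => 0
  | .ht i => (a i).h
  | .comb ε => v a ε

/-- same comparisons of the values of all valid symbols up to `N` -/
def Iso (N : ℕ) (a a' : ι → Y) : Prop :=
  ∀ p q, Ok a p → Ok a q → Cmp N (val a p) (val a' p) (val a q) (val a' q)

lemma Iso.mono {N N' : ℕ} (hN : N ≤ N') {a a' : ι → Y} (h : Iso N' a a') : Iso N a a' :=
  fun p q hp hq => (h p q hp hq).mono hN

lemma Iso.ht_eq {N : ℕ} {a a' : ι → Y} (h : Iso N a a') (i k : ι) :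
    (a i).h = (a k).h ↔ (a' i).h = (a' k).h := by
  have h1 := h (.ht i) (.ht k) trivial trivial
  constructor
  · intro e
    have := h1.eq (by simp [val, e])
    simpa [val] using this
  · intro e
    have := h1.swap.eq (by simp [val, e])
    simpa [val] using this

lemma tot_eq_of_pattern {a a' : ι → Y} (h : ∀ i k, (a i).h = (a k).h ↔ (a' i).h = (a' k).h)
    (ε : ι → ZMod 2) (k : ι) : tot a ε (a k).h = tot a' ε (a' k).h := by
  unfold tot
  apply Finset.sum_congr rfl
  intro i _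
  by_cases e : (a i).h = (a k).h
  · rw [if_pos e, if_pos ((h i k).1 e)]
  · rw [if_neg e, if_neg (fun e' => e ((h i k).2 e'))]

lemma tot_eq_zero {a : ι → Y} {ε : ι → ZMod 2} {s : ℕ} (h : ∀ i, (a i).h ≠ s) :
    tot a ε s = 0 := by
  unfold tot
  apply Finset.sum_eq_zero
  intro i _
  rw [if_neg (h i)]

lemma valid_of_pattern {a a' : ι → Y} (h : ∀ i k, (a i).h = (a k).h ↔ (a' i).h = (a' k).h)
    {ε : ι → ZMod 2} (hv : Valid a ε) : Valid a' ε := by
  intro s
  by_cases hs : ∃ k, (a' k).h = s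
  · obtain ⟨k, rfl⟩ := hs
    rw [← tot_eq_of_pattern h ε k]
    exact hv _
  · exact tot_eq_zero fun i hi => hs ⟨i, hi⟩

lemma odd_of_pattern {a a' : ι → Y} (h : ∀ i k, (a i).h = (a k).h ↔ (a' i).h = (a' k).h)
    {ε : ι → ZMod 2} {i : ι} (hv : Odd a (a i).h ε) : Odd a' (a' i).h ε := by
  intro s
  by_cases hs : ∃ k, (a' k).h = s
  · obtain ⟨k, rfl⟩ := hs
    rw [← tot_eq_of_pattern h ε k, hv]
    by_cases e : (a k).h = (a i).h
    · rw [if_pos e, if_pos ((h k i).1 e)]
    · rw [if_neg e, if_neg (fun e' => e ((h k i).2 e'))]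
  · rw [tot_eq_zero fun i hi => hs ⟨i, hi⟩, if_neg]
    rintro rfl
    exact hs ⟨i, rfl⟩

lemma Iso.ok {N : ℕ} {a a' : ι → Y} (h : Iso N a a') {p : Sym ι} (hp : Ok a p) : Ok a' p := by
  cases p with
  | zero => trivial
  | ht i => trivial
  | comb ε => exact valid_of_pattern h.ht_eq hp

lemma Iso.ok' {N : ℕ} {a a' : ι → Y} (h : Iso N a a') {p : Sym ι} (hp : Ok a' p) : Ok a p := by
  cases p with
  | zero => trivial
  | ht i => trivial
  | comb ε => exact valid_of_pattern (fun i k => (h.ht_eq i k).symm) hp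

lemma Iso.symm {N : ℕ} {a a' : ι → Y} (h : Iso N a a') : Iso N a' a :=
  fun p q hp hq => (h p q (h.ok' hp) (h.ok' hq)).swap

/-- extension of a family by one point -/
def cons (a : ι → Y) (x : Y) : Option ι → Y := fun o => o.elim x a

def one (δ : ι → ZMod 2) : Option ι → ZMod 2 := fun o => o.elim 1 δ

def zro (δ : ι → ZMod 2) : Option ι → ZMod 2 := fun o => o.elim 0 δ

omit [Fintype ι] in
lemma opt_cases (ε : Option ι → ZMod 2) :
    ε = zro (fun i => ε (some i)) ∨ ε = one (fun i => ε (some i)) := by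
  have h : ∀ z : ZMod 2, z = 0 ∨ z = 1 := by decide
  rcases h (ε none) with h0 | h1
  · left
    funext o
    cases o with
    | none => exact h0
    | some i => rfl
  · right
    funext o
    cases o with
    | none => exact h1
    | some i => rfl

lemma ge_zro (a : ι → Y) (x : Y) (δ : ι → ZMod 2) (s : ℕ) :
    Ge (cons a x) (zro δ) s ↔ Ge a δ s := by
  unfold Ge
  simp [Option.forall, Fintype.sum_option, cons, zro]

lemma v_zro (a : ι → Y) (x : Y) (δ : ι → ZMod 2) : v (cons a x) (zro δ) = v a δ := by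
  apply enat_ext
  intro n
  rw [le_v, le_v, ge_zro]

/-- the value of the combination `x + δ` -/
noncomputable def W (a : ι → Y) (x : Y) (δ : ι → ZMod 2) : ℕ∞ := v (cons a x) (one δ)

lemma le_W {a : ι → Y} {x : Y} {δ : ι → ZMod 2} {s : ℕ} : (s : ℕ∞) ≤ W a x δ ↔
    s ≤ x.h ∧ (∀ i, δ i ≠ 0 → s ≤ (a i).h) ∧ ∀ j < s, x.w j + ∑ i, δ i * (a i).w j = 0 := by
  unfold W
  rw [le_v]
  unfold Ge
  simp [Option.forall, Fintype.sum_option, cons, one, and_assoc]

lemma tot_zro (a : ι → Y) (x : Y) (δ : ι → ZMod 2) (s : ℕ) :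
    tot (cons a x) (zro δ) s = tot a δ s := by
  unfold tot
  rw [Fintype.sum_option]
  change (if x.h = s then (0 : ZMod 2) else 0) + _ = _
  rw [ite_self, zero_add]
  rfl

lemma tot_one (a : ι → Y) (x : Y) (δ : ι → ZMod 2) (s : ℕ) :
    tot (cons a x) (one δ) s = (if x.h = s then 1 else 0) + tot a δ s := by
  unfold tot
  rw [Fintype.sum_option]
  rfl

lemma valid_zro {a : ι → Y} {x : Y} {δ : ι → ZMod 2} :
    Valid (cons a x) (zro δ) ↔ Valid a δ := by
  unfold Valid
  simp [tot_zro]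

lemma valid_one {a : ι → Y} {x : Y} {δ : ι → ZMod 2} :
    Valid (cons a x) (one δ) ↔ Odd a x.h δ := by
  unfold Valid Odd
  simp only [tot_one]
  apply forall_congr'
  intro s
  have h : ∀ z : ZMod 2, (1 + z = 0 ↔ z = 1) := by decide
  by_cases e : x.h = s
  · rw [if_pos e, if_pos e.symm]
    exact h _
  · rw [if_neg e, if_neg (Ne.symm e), zero_add]

lemma W_le (a : ι → Y) (x : Y) (δ : ι → ZMod 2) : W a x δ ≤ x.h := by
  apply ENat.forall_natCast_le_iff_le.mp
  intro n hn
  have := (le_W.mp hn).1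
  exact_mod_cast this

lemma W_fin (a : ι → Y) (x : Y) (δ : ι → ZMod 2) : ∃ m : ℕ, W a x δ = m := by
  have h : W a x δ ≠ ⊤ := ne_top_of_le_ne_top (ENat.natCast_ne_top _) (W_le a x δ)
  obtain ⟨m, hm⟩ := ENat.ne_top_iff_exists.mp h
  exact ⟨m, hm.symm⟩

lemma v_fin {a : ι → Y} {δ : ι → ZMod 2} {i : ι} (hi : δ i ≠ 0) : v a δ ≤ (a i).h := by
  apply ENat.forall_natCast_le_iff_le.mp
  intro n hn
  have := (le_v.mp hn).1 i hi
  exact_mod_cast this

lemma odd_exists {a : ι → Y} {t : ℕ} {δ : ι → ZMod 2} (h : Odd a t δ) : ∃ i, (a i).h = t := by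
  by_contra hc
  push Not at hc
  have h1 := h t
  rw [tot_eq_zero hc, if_pos rfl] at h1
  exact absurd h1 (by decide)

lemma odd_single [DecidableEq ι] (a : ι → Y) (i : ι) : Odd a (a i).h (Pi.single i 1) := by
  intro s
  unfold tot
  by_cases e : s = (a i).h
  · rw [if_pos e, Finset.sum_eq_single i]
    · rw [if_pos e.symm]; simp
    · intro k _ hk
      simp [hk]
    · simp
  · rw [if_neg e]
    apply Finset.sum_eq_zero
    intro k _
    by_cases hk : k = i
    · subst hk
      rw [if_neg (Ne.symm e)]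
    · simp [hk]

lemma tot_add (a : ι → Y) (δ δ' : ι → ZMod 2) (s : ℕ) :
    tot a (δ + δ') s = tot a δ s + tot a δ' s := by
  unfold tot
  rw [← Finset.sum_add_distrib]
  apply Finset.sum_congr rfl
  intro i _
  split_ifs <;> simp

lemma valid_add_odd {a : ι → Y} {t : ℕ} {δ δ' : ι → ZMod 2} (h : Odd a t δ) (h' : Odd a t δ') :
    Valid a (δ + δ') := by
  intro s
  rw [tot_add, h, h']
  exact CharTwo.add_self_eq_zero _

lemma sum_add_comb (a : ι → Y) (δ δ' : ι → ZMod 2) (j : ℕ) :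
    ∑ i, (δ + δ') i * (a i).w j = ∑ i, δ i * (a i).w j + ∑ i, δ' i * (a i).w j := by
  rw [← Finset.sum_add_distrib]
  apply Finset.sum_congr rfl
  intro i _
  simp [add_mul]

lemma ge_add_of {a : ι → Y} {x : Y} {δ δ' : ι → ZMod 2} {s : ℕ} (h : (s : ℕ∞) ≤ W a x δ)
    (h' : (s : ℕ∞) ≤ W a x δ') : (s : ℕ∞) ≤ v a (δ + δ') := by
  rw [le_W] at h h'
  rw [le_v]
  refine ⟨fun i hi => ?_, fun j hj => ?_⟩
  · by_cases e : δ i = 0
    · have : δ' i ≠ 0 := by
        intro e'
        apply hi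
        simp [e, e']
      exact h'.2.1 i this
    · exact h.2.1 i e
  · rw [sum_add_comb]
    have h1 := h.2.2 j hj
    have h2 := h'.2.2 j hj
    have key : ∀ z p q : ZMod 2, z + p = 0 → z + q = 0 → p + q = 0 := by decide
    exact key _ _ _ h1 h2

/-- If the value of `x + δ` is less than that of `x + δ'`, it is a value of the old family. -/
lemma old_of_lt {a : ι → Y} {x : Y} {δ δ' : ι → ZMod 2} (h : W a x δ < W a x δ') :
    (∃ i, δ i ≠ 0 ∧ W a x δ = (a i).h) ∨
      ((∀ i, δ i ≠ 0 → W a x δ < (a i).h) ∧ W a x δ = v a (δ + δ')) := by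
  obtain ⟨m, hm⟩ := W_fin a x δ
  obtain ⟨m', hm'⟩ := W_fin a x δ'
  rw [hm, hm'] at h
  have hlt : m < m' := by exact_mod_cast h
  have h1 := le_W.mp hm.ge
  have h2 := le_W.mp hm'.ge
  by_cases hc : ∃ i, δ i ≠ 0 ∧ (a i).h = m
  · left
    obtain ⟨i, hi, e⟩ := hc
    exact ⟨i, hi, by rw [hm, e]⟩
  · right
    push Not at hc
    have h3 : ∀ i, δ i ≠ 0 → m < (a i).h := fun i hi =>
      lt_of_le_of_ne (h1.2.1 i hi) (Ne.symm (hc i hi))
    refine ⟨fun i hi => ?_, ?_⟩
    · rw [hm]; exact_mod_cast h3 i hi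
    · have hge : (m : ℕ∞) ≤ v a (δ + δ') :=
        ge_add_of hm.ge (by rw [hm']; exact_mod_cast hlt.le)
      have hnot : ¬ ((m + 1 : ℕ) : ℕ∞) ≤ v a (δ + δ') := by
        intro hcon
        have h4 := le_v.mp hcon
        have h5 : ¬ ((m + 1 : ℕ) : ℕ∞) ≤ W a x δ := by
          rw [hm]; norm_cast; omega
        apply h5
        rw [le_W]
        refine ⟨by omega, fun i hi => h3 i hi, fun j hj => ?_⟩
        have h6 := h4.2 j hj
        rw [sum_add_comb] at h6
        have h7 := h2.2.2 j (by omega)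
        have key : ∀ z p q : ZMod 2, z + q = 0 → p + q = 0 → z + p = 0 := by decide
        exact key _ _ _ h7 h6
      rw [hm]
      apply le_antisymm hge
      rw [← not_lt]
      intro hcon
      apply hnot
      have := Order.add_one_le_of_lt hcon
      exact_mod_cast this

end

end Pool.Agent.DpM
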