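import Mathlib
import Pool.Agent.DpM.Tree

/-!
The back-and-forth lemma for the torsor tree.
-/

namespace Pool.Agent.DpM

open Finset

section
variable {ι : Type} [Fintype ι]

lemma old_val_of_lt {a : ι → Y} {x : Y} {δ δ' : ι → ZMod 2} (hδ : Odd a x.h δ)
    (hδ' : Odd a x.h δ') (h : W a x δ < W a x δ') : ∃ p, Ok a p ∧ W a x δ = val a p := by
  rcases old_of_lt h with ⟨i, _, e⟩ | ⟨_, e⟩
  · exact ⟨.ht i, trivial, e⟩
  · exact ⟨.comb (δ + δ'), valid_add_odd hδ hδ', e⟩

lemma classify (a a' : ι → Y) (x x' : Y) (P : Sym (Option ι)) (hP : Ok (cons a x) P) :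
    (∃ p, Ok a p ∧ val (cons a x) P = val a p ∧ val (cons a' x') P = val a' p) ∨
    (val (cons a x) P = x.h ∧ val (cons a' x') P = x'.h) ∨
    (∃ δ, Odd a x.h δ ∧ val (cons a x) P = W a x δ ∧ val (cons a' x') P = W a' x' δ) := by
  cases P with
  | zero => exact Or.inl ⟨.zero, trivial, rfl, rfl⟩
  | ht o =>
    cases o with
    | none => exact Or.inr (Or.inl ⟨rfl, rfl⟩)
    | some i => exact Or.inl ⟨.ht i, trivial, rfl, rfl⟩
  | comb ε =>
    rcases opt_cases ε with h | h
    · left
      rw [h] at hP ⊢
      exact ⟨.comb _, valid_zro.mp hP, v_zro _ _ _, v_zro _ _ _⟩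
    · right; right
      rw [h] at hP ⊢
      exact ⟨_, valid_one.mp hP, rfl, rfl⟩

/-- Criterion for extending an isomorphism by one point. -/
lemma iso_ext {N : ℕ} {a a' : ι → Y} {x x' : Y} (H : Iso N a a')
    (h1 : ∀ p, Ok a p → Cmp N (val a p) (val a' p) x.h x'.h)
    (h2 : ∀ δ, Odd a x.h δ → ∀ p, Ok a p →
      Cmp N (val a p) (val a' p) (W a x δ) (W a' x' δ)) :
    Iso N (cons a x) (cons a' x') := by
  -- oddness transfers
  have hodd : ∀ δ, Odd a x.h δ → Odd a' x'.h δ := by
    intro δ hδ
    obtain ⟨i, hi⟩ := odd_exists hδ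
    have e := (h1 (.ht i) trivial).eq (by simp [val, hi])
    have e' : (a' i).h = x'.h := by
      simp only [val] at e
      exact_mod_cast e
    rw [← e']
    rw [← hi] at hδ
    exact odd_of_pattern H.ht_eq hδ
  have hBC : ∀ δ, Odd a x.h δ → Cmp N (x.h : ℕ∞) x'.h (W a x δ) (W a' x' δ) := by
    intro δ hδ
    obtain ⟨i, hi⟩ := odd_exists hδ
    have e := (h1 (.ht i) trivial).eq (by simp [val, hi])
    have := h2 δ hδ (.ht i) trivial
    rw [e] at this
    simpa [val, hi] using this
  have hlt : ∀ δ δ', Odd a x.h δ → Odd a x.h δ' → W a x δ < W a x δ' →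
      Cmp N (W a x δ) (W a' x' δ) (W a x δ') (W a' x' δ') := by
    intro δ δ' hδ hδ' hl
    obtain ⟨p, hp, e⟩ := old_val_of_lt hδ hδ' hl
    have e' := (h2 δ hδ p hp).eq e.symm
    rw [e, ← e']
    exact h2 δ' hδ' p hp
  have hlt' : ∀ δ δ', Odd a x.h δ → Odd a x.h δ' → W a' x' δ < W a' x' δ' →
      Cmp N (W a x δ) (W a' x' δ) (W a x δ') (W a' x' δ') := by
    intro δ δ' hδ hδ' hl
    obtain ⟨p, hp, e⟩ := old_val_of_lt (hodd δ hδ) (hodd δ' hδ') hl
    have hp' := H.ok' hp
    have e' := (h2 δ hδ p hp').swap.eq e.symm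
    rw [e, ← e']
    exact h2 δ' hδ' p hp'
  have hCC : ∀ δ δ', Odd a x.h δ → Odd a x.h δ' →
      Cmp N (W a x δ) (W a' x' δ) (W a x δ') (W a' x' δ') := by
    intro δ δ' hδ hδ'
    rcases lt_trichotomy (W a x δ) (W a x δ') with h | h | h
    · exact hlt δ δ' hδ hδ' h
    · rcases lt_trichotomy (W a' x' δ) (W a' x' δ') with h' | h' | h'
      · exact hlt' δ δ' hδ hδ' h'
      · rw [← h, ← h']
        obtain ⟨m, hm⟩ := W_fin a x δ
        obtain ⟨m', hm'⟩ := W_fin a' x' δ
        rw [hm, hm']
        exact Cmp.self_coe N m m'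
      · exact (hlt' δ' δ hδ' hδ h').symm
    · exact (hlt δ' δ hδ' hδ h).symm
  intro P Q hP hQ
  rcases classify a a' x x' P hP with ⟨p, hp, e1, e2⟩ | ⟨e1, e2⟩ | ⟨δ, hδ, e1, e2⟩ <;>
  rcases classify a a' x x' Q hQ with ⟨q, hq, e3, e4⟩ | ⟨e3, e4⟩ | ⟨δ', hδ', e3, e4⟩ <;>
  rw [e1, e2, e3, e4]
  · exact H p q hp hq
  · exact h1 p hp
  · exact h2 δ' hδ' p hp
  · exact (h1 q hq).symm
  · exact Cmp.self_coe N _ _
  · exact hBC δ' hδ'
  · exact (h2 δ hδ q hq).symm
  · exact (hBC δ hδ).symm
  · exact hCC δ δ' hδ hδ'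

/-- sums of words -/
def G (a : ι → Y) (δ : ι → ZMod 2) (j : ℕ) : ZMod 2 := ∑ i, δ i * (a i).w j

lemma W_le_ht {a : ι → Y} {x : Y} {δ : ι → ZMod 2} {i : ι} (hi : δ i ≠ 0) :
    W a x δ ≤ (a i).h := by
  apply ENat.forall_natCast_le_iff_le.mp
  intro n hn
  have := (le_W.mp hn).2.1 i hi
  exact_mod_cast this

lemma G_eq_of_le {a : ι → Y} {δ δ' : ι → ZMod 2} {s j : ℕ} (h : (s : ℕ∞) ≤ v a (δ + δ'))
    (hj : j < s) : G a δ j = G a δ' j := by
  have h1 := (le_v.mp h).2 j hj
  rw [sum_add_comb] at h1
  have key : ∀ p q : ZMod 2, p + q = 0 → p = q := by decide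
  exact key _ _ h1

lemma forth {N : ℕ} {a a' : ι → Y} (H : Iso (2 * N + 2) a a') (x : Y) :
    ∃ x', Iso N (cons a x) (cons a' x') := by
  classical
  have hpos : ∀ t : ℕ, ∃ t' : ℕ, ∀ p, Ok a p → Cmp N (val a p) (val a' p) t t' := by
    intro t
    obtain ⟨t', ht'⟩ := pos_lemma (σ := {p : Sym ι // Ok a p}) (N := N)
      (fun p => val a p.1) (fun p => val a' p.1) ⟨.zero, trivial⟩ rfl rfl
      (fun p q => H p.1 q.1 p.2 q.2) t
    exact ⟨t', fun p hp => ht' ⟨p, hp⟩⟩
  have HN : Iso N a a' := H.mono (by omega)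
  by_cases hold : ∃ i, (a i).h = x.h
  swap
  · -- new height
    obtain ⟨t', ht'⟩ := hpos x.h
    refine ⟨⟨t', fun _ => 0, fun _ _ => rfl⟩, iso_ext HN ht' ?_⟩
    intro δ hδ
    exact absurd (odd_exists hδ) hold
  obtain ⟨i0, hi0⟩ := hold
  obtain ⟨δs, hδs, hmax⟩ := Finset.exists_max_image
    ((Finset.univ : Finset (ι → ZMod 2)).filter (fun δ => Odd a x.h δ)) (W a x)
    ⟨Pi.single i0 1, by simp only [mem_filter, mem_univ, true_and]; rw [← hi0]; exact odd_single a i0⟩
  simp only [mem_filter, mem_univ, true_and] at hδs hmax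
  obtain ⟨κ, hκ⟩ := W_fin a x δs
  obtain ⟨κ', hκ'⟩ := hpos κ
  have hκt : κ ≤ x.h := by
    have := W_le a x δs
    rw [hκ] at this
    exact_mod_cast this
  have hκt' : κ' ≤ (a' i0).h := by
    have := (hκ' (.ht i0) trivial).ge.1 (by simp only [val]; rw [hi0]; exact_mod_cast hκt)
    simp only [val] at this
    exact_mod_cast this
  -- the digit at κ'
  obtain ⟨g, hg⟩ : ∃ g : ZMod 2, ∀ δ, Odd a x.h δ → W a x δ = κ →
      (∀ i, δ i ≠ 0 → κ < (a i).h) → κ < x.h → g = G a' δ κ' + 1 := by
    by_cases hex : ∃ δ, Odd a x.h δ ∧ W a x δ = κ ∧ (∀ i, δ i ≠ 0 → κ < (a i).h) ∧ κ < x.h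
    · obtain ⟨δ1, h1, h2, h3, h4⟩ := hex
      refine ⟨G a' δ1 κ' + 1, ?_⟩
      intro δ g1 g2 g3 _
      have hv : ((κ + 1 : ℕ) : ℕ∞) ≤ v a (δ1 + δ) := by
        rw [le_v]
        refine ⟨fun i hi => ?_, fun j hj => ?_⟩
        · by_cases e : δ1 i = 0
          · apply g3
            intro e'
            apply hi
            simp [e, e']
          · exact h3 i e
        · rw [sum_add_comb]
          rcases Nat.lt_succ_iff_lt_or_eq.mp hj with hj | hj
          · have k1 := (le_W.mp h2.ge).2.2 j hj
            have k2 := (le_W.mp g2.ge).2.2 j hj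
            have key : ∀ z p q : ZMod 2, z + p = 0 → z + q = 0 → p + q = 0 := by decide
            exact key _ _ _ k1 k2
          · subst hj
            have k1 : x.w j + ∑ i, δ1 i * (a i).w j ≠ 0 := by
              intro hcon
              have : ((j + 1 : ℕ) : ℕ∞) ≤ W a x δ1 := by
                rw [le_W]
                refine ⟨h4, fun i hi => h3 i hi, fun l hl => ?_⟩
                rcases Nat.lt_succ_iff_lt_or_eq.mp hl with hl | hl
                · exact (le_W.mp h2.ge).2.2 l hl
                · rw [hl]; exact hcon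
              rw [h2] at this
              norm_cast at this
              omega
            have k2 : x.w j + ∑ i, δ i * (a i).w j ≠ 0 := by
              intro hcon
              have : ((j + 1 : ℕ) : ℕ∞) ≤ W a x δ := by
                rw [le_W]
                refine ⟨h4, fun i hi => g3 i hi, fun l hl => ?_⟩
                rcases Nat.lt_succ_iff_lt_or_eq.mp hl with hl | hl
                · exact (le_W.mp g2.ge).2.2 l hl
                · rw [hl]; exact hcon
              rw [g2] at this
              norm_cast at this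
              omega
            have key : ∀ z p q : ZMod 2, z + p ≠ 0 → z + q ≠ 0 → p + q = 0 := by decide
            exact key _ _ _ k1 k2
      have hv' : (κ' : ℕ∞) < v a' (δ1 + δ) := by
        have := hκ' (.comb (δ1 + δ)) (valid_add_odd h1 g1)
        apply this.gt.1
        refine lt_of_lt_of_le ?_ hv
        norm_cast
        omega
      have hv'' : ((κ' + 1 : ℕ) : ℕ∞) ≤ v a' (δ1 + δ) := by
        have := Order.add_one_le_of_lt hv'
        exact_mod_cast this
      rw [G_eq_of_le hv'' (Nat.lt_succ_self _)]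
    · refine ⟨0, fun δ g1 g2 g3 g4 => absurd ⟨δ, g1, g2, g3, g4⟩ hex⟩
  let x' : Y := ⟨(a' i0).h, fun j => if j < κ' then G a' δs j else
    if j = κ' ∧ κ' < (a' i0).h then g else 0, fun j hj => by
      have h1 : ¬ j < κ' := by omega
      have h2 : ¬ (j = κ' ∧ κ' < (a' i0).h) := by omega
      simp only [h1, h2, if_false]⟩
  have hx'h : x'.h = (a' i0).h := rfl
  have F1 : ∀ j < κ', x'.w j = G a' δs j := by
    intro j hj
    change (if j < κ' then G a' δs j else _) = _
    rw [if_pos hj]
  have F2 : κ' < (a' i0).h → x'.w κ' = g := by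
    intro hlt
    change (if κ' < κ' then G a' δs κ' else if κ' = κ' ∧ κ' < (a' i0).h then g else 0) = _
    rw [if_neg (lt_irrefl _), if_pos ⟨rfl, hlt⟩]
  have key2 : ∀ p : ZMod 2, p + p = 0 := by decide
  have key3 : ∀ p : ZMod 2, p + 1 + p ≠ 0 := by decide
  -- agreement of G' for combos of large value
  have F3 : ∀ δ, Odd a x.h δ → ∀ s : ℕ, (s : ℕ∞) ≤ v a' (δ + δs) → s ≤ κ' → ∀ j < s,
      x'.w j + ∑ i, δ i * (a' i).w j = 0 := by
    intro δ hδ s hs hsκ j hj
    have h1 := G_eq_of_le hs hj
    rw [F1 j (by omega), ← h1]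
    exact key2 _
  have hWs : ∀ δ, Odd a x.h δ → W a x δ = κ → W a' x' δ = κ' := by
    intro δ hδ hW
    have hge : (κ' : ℕ∞) ≤ W a' x' δ := by
      rw [le_W]
      refine ⟨hκt', fun i hi => ?_, ?_⟩
      · have h1 : W a x δ ≤ (a i).h := W_le_ht hi
        rw [hW] at h1
        have := (hκ' (.ht i) trivial).ge.1 h1
        simp only [val] at this
        exact_mod_cast this
      · apply F3 δ hδ κ' _ le_rfl
        have h1 : (κ : ℕ∞) ≤ v a (δ + δs) := ge_add_of hW.ge hκ.ge
        exact (hκ' (.comb (δ + δs)) (valid_add_odd hδ hδs)).ge.1 h1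
    apply le_antisymm _ hge
    rw [← not_lt]
    intro hlt
    have hlt1 : ((κ' + 1 : ℕ) : ℕ∞) ≤ W a' x' δ := by
      have := Order.add_one_le_of_lt hlt
      exact_mod_cast this
    rw [le_W] at hlt1
    have hh : ∀ i, δ i ≠ 0 → κ < (a i).h := by
      intro i hi
      have h1 := hlt1.2.1 i hi
      have := (hκ' (.ht i) trivial).gt.2 (by simp only [val]; exact_mod_cast h1)
      simp only [val] at this
      exact_mod_cast this
    have ht : κ < x.h := by
      have h1 := hlt1.1
      have := (hκ' (.ht i0) trivial).gt.2 (by simp only [val]; exact_mod_cast h1)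
      simp only [val, hi0] at this
      exact_mod_cast this
    have h2 := hlt1.2.2 κ' (Nat.lt_succ_self _)
    rw [F2 hlt1.1, hg δ hδ hW hh ht] at h2
    exact key3 _ h2
  refine ⟨x', iso_ext HN ?_ ?_⟩
  · intro p hp
    have := HN p (.ht i0) hp trivial
    simp only [val, hi0] at this
    exact this
  · intro δ hδ p hp
    rcases eq_or_lt_of_le (hmax δ hδ) with e | hlt
    · rw [e, hκ, hWs δ hδ (by rw [e, hκ])]
      exact hκ' p hp
    · rcases old_of_lt hlt with ⟨i, hi, e⟩ | ⟨hall, e⟩
      · -- value is a height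
        have hiκ : (a i).h < κ := by
          rw [e, hκ] at hlt
          exact_mod_cast hlt
        have hiκ' : (a' i).h < κ' := by
          have := (hκ' (.ht i) trivial).lt.1 (by simp only [val]; exact_mod_cast hiκ)
          simp only [val] at this
          exact_mod_cast this
        have e' : W a' x' δ = (a' i).h := by
          apply le_antisymm (W_le_ht hi)
          rw [le_W]
          refine ⟨by rw [hx'h]; omega, fun k hk => ?_, ?_⟩
          · have h1 : W a x δ ≤ (a k).h := W_le_ht hk
            rw [e] at h1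
            have := (HN (.ht i) (.ht k) trivial trivial).le.1 h1
            simp only [val] at this
            exact_mod_cast this
          · apply F3 δ hδ _ _ hiκ'.le
            have h1 : ((a i).h : ℕ∞) ≤ v a (δ + δs) :=
              ge_add_of e.ge (by rw [hκ]; exact_mod_cast hiκ.le)
            exact (HN (.ht i) (.comb (δ + δs)) trivial (valid_add_odd hδ hδs)).le.1 h1
        rw [e, e']
        exact HN p (.ht i) hp trivial
      · -- value is the value of a combination
        have hok : Ok a (.comb (δ + δs)) := valid_add_odd hδ hδs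
        have hvκ : v a (δ + δs) < κ := by rw [← e, ← hκ]; exact hlt
        have hvκ' : v a' (δ + δs) < κ' := (hκ' (.comb (δ + δs)) hok).lt.1 hvκ
        have hall' : ∀ k, δ k ≠ 0 → v a' (δ + δs) < (a' k).h := by
          intro k hk
          have h1 := hall k hk
          rw [e] at h1
          exact (HN (.comb (δ + δs)) (.ht k) hok trivial).lt.1 h1
        obtain ⟨m, hm⟩ := ENat.ne_top_iff_exists.mp (ne_top_of_lt hvκ')
        have hmκ : m < κ' := by rw [← hm] at hvκ'; exact_mod_cast hvκ'
        have e' : W a' x' δ = v a' (δ + δs) := by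
          rw [← hm]
          apply le_antisymm
          · rw [← not_lt]
            intro hcon
            have hc1 : ((m + 1 : ℕ) : ℕ∞) ≤ W a' x' δ := by
              have := Order.add_one_le_of_lt hcon
              exact_mod_cast this
            rw [le_W] at hc1
            have hc2 : ((m + 1 : ℕ) : ℕ∞) ≤ v a' (δ + δs) := by
              rw [le_v]
              refine ⟨fun k hk => ?_, fun j hj => ?_⟩
              · by_cases e0 : δ k = 0
                · have e1 : δs k ≠ 0 := by
                    intro e1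
                    apply hk
                    simp [e0, e1]
                  have h1 : W a x δs ≤ (a k).h := W_le_ht e1
                  rw [hκ] at h1
                  have := (hκ' (.ht k) trivial).ge.1 h1
                  simp only [val] at this
                  have : κ' ≤ (a' k).h := by exact_mod_cast this
                  omega
                · have := hall' k e0
                  rw [← hm] at this
                  exact_mod_cast this
              · rw [sum_add_comb]
                have h1 := hc1.2.2 j hj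
                rw [F1 j (by omega)] at h1
                rw [add_comm]
                exact h1
            rw [← hm] at hc2
            norm_cast at hc2
            omega
          · rw [le_W]
            refine ⟨by rw [hx'h]; omega, fun k hk => ?_, ?_⟩
            · have := hall' k hk
              rw [← hm] at this
              have : m < (a' k).h := by exact_mod_cast this
              omega
            · exact F3 δ hδ m hm.le hmκ.le
        rw [e, e']
        exact HN p (.comb (δ + δs)) hp hok

end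

end Pool.Agent.DpM
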