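import Mathlib
import Pool.Agent.DpM.Forth

/-!
The language with one quaternary relation, the torsor tree as a structure, and the invariance of
formulas under the back-and-forth relation.
-/

namespace Pool.Agent.DpM

open FirstOrder Language Finset

/-- the relation symbols: one symbol of arity four -/
inductive Rel4 : ℕ → Type
  | P : Rel4 4

/-- the language with a single relation symbol, of arity four -/
def L : FirstOrder.Language.{0, 0} := ⟨fun _ => Empty, Rel4⟩

/-- the relation of the torsor tree -/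
def PY (y1 y2 z1 z2 : Y) : Prop :=
  y1.h = y2.h ∧ z1.h = z2.h ∧ z1.h ≤ y1.h ∧ ∀ j < z1.h, y1.w j + y2.w j = z1.w j + z2.w j

/-- the torsor tree -/
instance instY : L.Structure Y where
  funMap := fun f _ => Empty.elim f
  RelMap := fun {_} r xs => match r, xs with
    | Rel4.P, xs => PY (xs 0) (xs 1) (xs 2) (xs 3)

def P : L.Relations 4 := Rel4.P

lemma relMap_P (xs : Fin 4 → Y) :
    Structure.RelMap P xs ↔ PY (xs 0) (xs 1) (xs 2) (xs 3) := Iff.rfl

section
variable {ι : Type} [Fintype ι]

/-- transport along a bijection of the index sets -/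
lemma ge_equiv {κ : Type} [Fintype κ] (f : κ ≃ ι) (a : ι → Y) (ε : κ → ZMod 2) (s : ℕ) :
    Ge (a ∘ f) ε s ↔ Ge a (ε ∘ f.symm) s := by
  unfold Ge
  constructor
  · rintro ⟨h1, h2⟩
    refine ⟨fun i hi => ?_, fun j hj => ?_⟩
    · have := h1 (f.symm i) hi
      simpa using this
    · rw [← h2 j hj]
      rw [← Equiv.sum_comp f]
      simp
  · rintro ⟨h1, h2⟩
    refine ⟨fun i hi => ?_, fun j hj => ?_⟩
    · exact h1 (f i) (by simpa using hi)
    · rw [← h2 j hj]
      rw [← Equiv.sum_comp f]
      simp

lemma v_equiv {κ : Type} [Fintype κ] (f : κ ≃ ι) (a : ι → Y) (ε : κ → ZMod 2) :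
    v (a ∘ f) ε = v a (ε ∘ f.symm) := by
  apply enat_ext
  intro n
  rw [le_v, le_v, ge_equiv]

lemma tot_equiv {κ : Type} [Fintype κ] (f : κ ≃ ι) (a : ι → Y) (ε : κ → ZMod 2) (s : ℕ) :
    tot (a ∘ f) ε s = tot a (ε ∘ f.symm) s := by
  unfold tot
  rw [← Equiv.sum_comp f]
  simp

def symMap {κ : Type} (f : κ ≃ ι) : Sym κ → Sym ι
  | .zero => .zero
  | .ht i => .ht (f i)
  | .comb ε => .comb (ε ∘ f.symm)

lemma ok_equiv {κ : Type} [Fintype κ] (f : κ ≃ ι) (a : ι → Y) (p : Sym κ)
    (h : Ok (a ∘ f) p) : Ok a (symMap f p) := by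
  cases p with
  | zero => trivial
  | ht i => trivial
  | comb ε =>
    intro s
    have := h s
    rw [tot_equiv] at this
    exact this

lemma val_equiv {κ : Type} [Fintype κ] (f : κ ≃ ι) (a : ι → Y) (p : Sym κ) :
    val (a ∘ f) p = val a (symMap f p) := by
  cases p with
  | zero => rfl
  | ht i => rfl
  | comb ε => exact v_equiv f a ε

lemma Iso.equiv {κ : Type} [Fintype κ] {N : ℕ} {a a' : ι → Y} (h : Iso N a a') (f : κ ≃ ι) :
    Iso N (a ∘ f) (a' ∘ f) := by
  intro p q hp hq
  rw [val_equiv, val_equiv, val_equiv, val_equiv]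
  exact h _ _ (ok_equiv f a p hp) (ok_equiv f a q hq)

lemma sum_single_mul [DecidableEq ι] (a : ι → Y) (i : ι) (j : ℕ) :
    ∑ m, (Pi.single i (1 : ZMod 2) : ι → ZMod 2) m * (a m).w j = (a i).w j := by
  rw [Finset.sum_eq_single i]
  · simp
  · intro k _ hk; simp [hk]
  · simp

lemma tot_single [DecidableEq ι] (a : ι → Y) (i : ι) (s : ℕ) :
    tot a (Pi.single i 1) s = if (a i).h = s then 1 else 0 := by
  rw [odd_single a i s]
  by_cases e : s = (a i).h
  · rw [if_pos e, if_pos e.symm]
  · rw [if_neg e, if_neg (Ne.symm e)]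

/-- equality in terms of values -/
lemma eq_iff_values [DecidableEq ι] (a : ι → Y) (i j : ι) :
    a i = a j ↔ (a i).h = (a j).h ∧
      ((a i).h : ℕ∞) ≤ v a (Pi.single i 1 + Pi.single j 1) := by
  have key : ∀ p q : ZMod 2, p + q = 0 → p = q := by decide
  have key2 : ∀ p : ZMod 2, p + p = 0 := by decide
  constructor
  · intro e
    refine ⟨by rw [e], ?_⟩
    rw [le_v]
    refine ⟨fun k hk => ?_, fun m _ => ?_⟩
    · by_cases h1 : k = i
      · rw [h1]
      · by_cases h2 : k = j
        · rw [h2, e]
        · simp [h1, h2] at hk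
    · rw [sum_add_comb, sum_single_mul, sum_single_mul, e]
      exact key2 _
  · rintro ⟨h1, h2⟩
    rw [le_v] at h2
    apply Y.ext h1
    funext m
    by_cases hm : m < (a i).h
    · have := h2.2 m hm
      rw [sum_add_comb, sum_single_mul, sum_single_mul] at this
      exact key _ _ this
    · rw [(a i).supp m (by omega), (a j).supp m (by omega)]

lemma PY_iff_values [DecidableEq ι] (a : ι → Y) (i j k l : ι) :
    PY (a i) (a j) (a k) (a l) ↔ (a i).h = (a j).h ∧ (a k).h = (a l).h ∧ (a k).h ≤ (a i).h ∧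
      ((a k).h : ℕ∞) ≤ v a (Pi.single i 1 + Pi.single j 1 + (Pi.single k 1 + Pi.single l 1)) := by
  have key : ∀ p q r s : ZMod 2, p + q + (r + s) = 0 ↔ p + q = r + s := by decide
  unfold PY
  constructor
  · rintro ⟨h1, h2, h3, h4⟩
    refine ⟨h1, h2, h3, ?_⟩
    rw [le_v]
    refine ⟨fun m hm => ?_, fun m hm => ?_⟩
    · by_cases e1 : m = i
      · rw [e1]; exact h3
      · by_cases e2 : m = j
        · rw [e2, ← h1]; exact h3
        · by_cases e3 : m = k
          · rw [e3]
          · by_cases e4 : m = l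
            · rw [e4, ← h2]
            · simp [e1, e2, e3, e4] at hm
    · rw [sum_add_comb, sum_add_comb, sum_add_comb, sum_single_mul, sum_single_mul,
        sum_single_mul, sum_single_mul, key]
      exact h4 m hm
  · rintro ⟨h1, h2, h3, h4⟩
    refine ⟨h1, h2, h3, fun m hm => ?_⟩
    rw [le_v] at h4
    have := h4.2 m hm
    rw [sum_add_comb, sum_add_comb, sum_add_comb, sum_single_mul, sum_single_mul,
        sum_single_mul, sum_single_mul, key] at this
    exact this

lemma Iso.eq_iff {N : ℕ} {a a' : ι → Y} (h : Iso N a a') (i j : ι) : a i = a j ↔ a' i = a' j := by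
  classical
  rw [eq_iff_values, eq_iff_values, h.ht_eq i j]
  apply and_congr_right
  intro e
  have e' : (a i).h = (a j).h := (h.ht_eq i j).2 e
  have hok : Ok a (.comb (Pi.single i 1 + Pi.single j 1)) := by
    intro s
    rw [tot_add, tot_single, tot_single, e']
    exact CharTwo.add_self_eq_zero _
  exact (h (.ht i) (.comb _) trivial hok).le

lemma Iso.PY_iff {N : ℕ} {a a' : ι → Y} (h : Iso N a a') (i j k l : ι) :
    PY (a i) (a j) (a k) (a l) ↔ PY (a' i) (a' j) (a' k) (a' l) := by
  classical
  rw [PY_iff_values, PY_iff_values, h.ht_eq i j, h.ht_eq k l]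
  apply and_congr_right
  intro e1
  apply and_congr_right
  intro e2
  have e1' : (a i).h = (a j).h := (h.ht_eq i j).2 e1
  have e2' : (a k).h = (a l).h := (h.ht_eq k l).2 e2
  have hh : (a k).h ≤ (a i).h ↔ (a' k).h ≤ (a' i).h := by
    have := (h (.ht k) (.ht i) trivial trivial).le
    simp only [val] at this
    exact_mod_cast this
  rw [hh]
  apply and_congr_right
  intro _
  have hok : Ok a (.comb (Pi.single i 1 + Pi.single j 1 + (Pi.single k 1 + Pi.single l 1))) := by
    intro s
    rw [tot_add, tot_add, tot_add, tot_single, tot_single, tot_single, tot_single, e1', e2',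
      CharTwo.add_self_eq_zero, CharTwo.add_self_eq_zero, add_zero]
  exact (h (.ht k) (.comb _) trivial hok).le

end

/-- the bijection used to add a bound variable -/
def addVar (α : Type) (n : ℕ) : α ⊕ Fin (n + 1) ≃ Option (α ⊕ Fin n) where
  toFun := fun x => match x with
    | Sum.inl a => some (Sum.inl a)
    | Sum.inr i => if h : (i : ℕ) < n then some (Sum.inr ⟨i, h⟩) else none
  invFun := fun o => match o with
    | none => Sum.inr (Fin.last n)
    | some (Sum.inl a) => Sum.inl a
    | some (Sum.inr i) => Sum.inr i.castSucc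
  left_inv := by
    rintro (a | i)
    · rfl
    · by_cases h : (i : ℕ) < n
      · simp only [h, dif_pos]
        rfl
      · simp only [h, dif_neg, not_false_eq_true]
        congr 1
        apply Fin.ext
        simp
        omega
  right_inv := by
    rintro (_ | (a | i))
    · simp
    · rfl
    · simp

lemma snoc_eq_cons {α : Type} {n : ℕ} (v : α → Y) (xs : Fin n → Y) (x : Y) :
    Sum.elim v (Fin.snoc xs x : Fin (n + 1) → Y) = cons (Sum.elim v xs) x ∘ addVar α n := by
  funext z
  rcases z with a | i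
  · rfl
  · by_cases h : (i : ℕ) < n
    · simp only [Sum.elim_inr, Function.comp_apply]
      have e : (addVar α n) (Sum.inr i) = some (Sum.inr ⟨i, h⟩) := by
        simp [addVar, h]
      rw [e]
      simp only [cons, Option.elim_some, Sum.elim_inr, Fin.snoc, h, dif_pos]
      rfl
    · simp only [Sum.elim_inr, Function.comp_apply]
      have e : (addVar α n) (Sum.inr i) = none := by
        simp [addVar, h]
      rw [e]
      simp only [cons, Option.elim_none, Fin.snoc, h, dif_neg, not_false_eq_true]
      rfl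

lemma term_var {α : Type} (t : L.Term α) : ∃ i, t = Term.var i := by
  cases t with
  | var i => exact ⟨i, rfl⟩
  | func f ts => exact Empty.elim f

/-- Every formula is invariant under the back-and-forth relation of a suitable level. -/
lemma invariance {α : Type} [Fintype α] {n : ℕ} (φ : L.BoundedFormula α n) :
    ∃ N : ℕ, ∀ (v v' : α → Y) (xs xs' : Fin n → Y),
      Iso N (Sum.elim v xs) (Sum.elim v' xs') → (φ.Realize v xs ↔ φ.Realize v' xs') := by
  induction φ with
  | falsum => exact ⟨0, fun _ _ _ _ _ => Iff.rfl⟩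
  | equal t₁ t₂ =>
    refine ⟨0, fun v v' xs xs' h => ?_⟩
    obtain ⟨i, rfl⟩ := term_var t₁
    obtain ⟨j, rfl⟩ := term_var t₂
    exact h.eq_iff i j
  | rel R ts =>
    refine ⟨0, fun v v' xs xs' h => ?_⟩
    cases R
    have hts : ∀ k, ∃ i, ts k = Term.var i := fun k => term_var (ts k)
    choose f hf using hts
    have : ts = fun k => Term.var (f k) := funext hf
    subst this
    exact h.PY_iff (f 0) (f 1) (f 2) (f 3)
  | imp φ ψ ih1 ih2 =>
    obtain ⟨N1, h1⟩ := ih1
    obtain ⟨N2, h2⟩ := ih2
    refine ⟨max N1 N2, fun v v' xs xs' h => ?_⟩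
    simp only [BoundedFormula.realize_imp]
    rw [h1 v v' xs xs' (h.mono (le_max_left _ _)), h2 v v' xs xs' (h.mono (le_max_right _ _))]
  | all φ ih =>
    obtain ⟨N, hN⟩ := ih
    refine ⟨2 * N + 2, fun v v' xs xs' h => ?_⟩
    simp only [BoundedFormula.realize_all]
    constructor
    · intro hall x'
      obtain ⟨x, hx⟩ := forth h.symm x'
      have h1 := hx.equiv (addVar α _)
      rw [← snoc_eq_cons, ← snoc_eq_cons] at h1
      exact (hN _ _ _ _ h1).2 (hall x)
    · intro hall x
      obtain ⟨x', hx⟩ := forth h x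
      have h1 := hx.equiv (addVar α _)
      rw [← snoc_eq_cons, ← snoc_eq_cons] at h1
      exact (hN _ _ _ _ h1).2 (hall x')

/-- invariance for formulas without bound variables -/
lemma invariance' {α : Type} [Fintype α] (φ : L.Formula α) :
    ∃ N : ℕ, ∀ (v v' : α → Y), Iso N v v' → (φ.Realize v ↔ φ.Realize v') := by
  obtain ⟨N, hN⟩ := invariance φ
  refine ⟨N, fun v v' h => ?_⟩
  unfold Formula.Realize
  apply hN
  have e : ∀ u : α → Y, Sum.elim u (default : Fin 0 → Y) = u ∘ (Equiv.sumEmpty α (Fin 0)) := by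
    intro u
    funext z
    rcases z with a | i
    · rfl
    · exact i.elim0
  rw [e, e]
  exact h.equiv _

end Pool.Agent.DpM
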