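import Mathlib
import Pool.Agent.DpM.Lang
import Pool.Agent.DpM.Defs

/-!
The theory of the torsor tree is dp-minimal.
-/

namespace Pool.Agent.DpM

open FirstOrder Language Finset

/-! ### Combinatorics -/

lemma rectangle (C : Type) [Finite C] : ∃ n : ℕ, ∀ c : Fin n → Fin n → C,
    ∃ i i' j j' : Fin n, i ≠ i' ∧ j ≠ j' ∧ c i j' = c i j ∧ c i' j = c i j ∧ c i' j' = c i j := by
  classical
  cases nonempty_fintype C
  let r := Fintype.card C + 1
  let R := Fintype.card (Fin r × Fin r × C) + 1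
  refine ⟨r + R, fun c => ?_⟩
  have h1 : ∀ i : Fin (r + R), ∃ j j' : Fin r, j ≠ j' ∧
      c i (Fin.castAdd R j') = c i (Fin.castAdd R j) := by
    intro i
    obtain ⟨j, j', hne, he⟩ := Fintype.exists_ne_map_eq_of_card_lt
      (fun j : Fin r => c i (Fin.castAdd R j)) (by simp [r])
    exact ⟨j, j', hne, he.symm⟩
  choose f f' hne he using h1
  obtain ⟨i, i', hii, hf⟩ := Fintype.exists_ne_map_eq_of_card_lt
    (fun i : Fin (r + R) => (f i, f' i, c i (Fin.castAdd R (f i))))
    (by simp only [Fintype.card_fin, R]; omega)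
  simp only [Prod.mk.injEq] at hf
  obtain ⟨g1, g2, g3⟩ := hf
  refine ⟨i, i', Fin.castAdd R (f i), Fin.castAdd R (f' i), hii, ?_, he i, ?_, ?_⟩
  · intro h
    exact hne i (Fin.castAdd_injective _ _ h)
  · rw [g3, g1]
  · rw [g3, g2, he i']

lemma prop_aux1 {A A' B B' : Prop} (h1 : ¬ (A ↔ A')) (h2 : ¬ (B ↔ B')) (t1 : A → B)
    (t2 : A → B') (t3 : A' → B) (t4 : A' → B') : False := by tauto

lemma prop_aux2 {A A' B B' : Prop} (h1 : ¬ (A ↔ A')) (h2 : ¬ (B ↔ B')) (t1 : A → ¬ B)
    (t2 : A → ¬ B') (t3 : A' → ¬ B) (t4 : A' → ¬ B') : False := by tauto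

lemma no_grid {X K K' : Type} [Finite K] [Finite K'] : ∃ n : ℕ,
    ∀ (D : Fin n → K → Set X) (E : Fin n → K' → Set X),
    (∀ i k j k', D i k ⊆ E j k' ∨ E j k' ⊆ D i k ∨ Disjoint (D i k) (E j k')) →
    ∀ (β : Fin n → Set (K → Prop)) (γ : Fin n → Set (K' → Prop)) (x : Fin n → Fin n → X),
    ¬ ∀ i j, (∀ k, (fun m => x i j ∈ D k m) ∈ β k ↔ k = i) ∧
      (∀ k, (fun m => x i j ∈ E k m) ∈ γ k ↔ k = j) := by
  classical
  obtain ⟨n, hn⟩ := rectangle ((K → K' → Fin 3) × Set (K → Prop) × Set (K' → Prop))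
  refine ⟨n, fun D E hlam β γ x hx => ?_⟩
  let R : Fin n → Fin n → K → K' → Fin 3 := fun i j k k' =>
    if D i k ⊆ E j k' then 0 else if E j k' ⊆ D i k then 1 else 2
  obtain ⟨i, i', j, j', hi, hj, h1, h2, h3⟩ := hn (fun i j => (R i j, β i, γ j))
  simp only [Prod.mk.injEq] at h1 h2 h3
  obtain ⟨r1, -, g1⟩ := h1
  obtain ⟨r2, b2, -⟩ := h2
  obtain ⟨r3, -, -⟩ := h3
  have hx1 := (hx i j).1
  have hx2 := (hx i j).2
  have hD : ∃ k, ¬ ((x i j ∈ D i k) ↔ (x i j ∈ D i' k)) := by
    by_contra hc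
    push Not at hc
    have e : (fun m => x i j ∈ D i m) = (fun m => x i j ∈ D i' m) := by
      funext m
      exact propext (hc m)
    have h4 := (hx1 i).2 rfl
    have h5 := (hx1 i').not.2 (Ne.symm hi)
    rw [b2, ← e] at h5
    exact h5 h4
  have hE : ∃ k, ¬ ((x i j ∈ E j k) ↔ (x i j ∈ E j' k)) := by
    by_contra hc
    push Not at hc
    have e : (fun m => x i j ∈ E j m) = (fun m => x i j ∈ E j' m) := by
      funext m
      exact propext (hc m)
    have h4 := (hx2 j).2 rfl
    have h5 := (hx2 j').not.2 (Ne.symm hj)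
    rw [g1, ← e] at h5
    exact h5 h4
  obtain ⟨k, hk⟩ := hD
  obtain ⟨k', hk'⟩ := hE
  have s1 := congrFun (congrFun r1 k) k'
  have s2 := congrFun (congrFun r2 k) k'
  have s3 := congrFun (congrFun r3 k) k'
  have l0 := hlam i k j k'
  have l1 := hlam i k j' k'
  have l2 := hlam i' k j k'
  have l3 := hlam i' k j' k'
  simp only [R] at s1 s2 s3
  generalize D i k = D1 at *
  generalize D i' k = D2 at *
  generalize E j k' = E1 at *
  generalize E j' k' = E2 at *
  generalize x i j = z at *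
  have h01 : (0 : Fin 3) ≠ 1 := by decide
  have h02 : (0 : Fin 3) ≠ 2 := by decide
  have h12 : (1 : Fin 3) ≠ 2 := by decide
  by_cases q0 : D1 ⊆ E1
  · have q1 : D1 ⊆ E2 := by
      by_contra hc
      rw [if_neg hc, if_pos q0] at s1
      split_ifs at s1
      · exact h01 s1.symm
      · exact h02 s1.symm
    have q2 : D2 ⊆ E1 := by
      by_contra hc
      rw [if_neg hc, if_pos q0] at s2
      split_ifs at s2
      · exact h01 s2.symm
      · exact h02 s2.symm
    have q3 : D2 ⊆ E2 := by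
      by_contra hc
      rw [if_neg hc, if_pos q0] at s3
      split_ifs at s3
      · exact h01 s3.symm
      · exact h02 s3.symm
    have t1 : z ∈ D1 → z ∈ E1 := fun h => q0 h
    have t2 : z ∈ D1 → z ∈ E2 := fun h => q1 h
    have t3 : z ∈ D2 → z ∈ E1 := fun h => q2 h
    have t4 : z ∈ D2 → z ∈ E2 := fun h => q3 h
    exact prop_aux1 hk hk' t1 t2 t3 t4
  · by_cases p0 : E1 ⊆ D1
    · rw [if_neg q0, if_pos p0] at s1 s2 s3
      have p1 : E2 ⊆ D1 := by
        split_ifs at s1 with u1 u2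
        · exact absurd s1 h01
        · exact u2
        · exact absurd s1 h12.symm
      have p2 : E1 ⊆ D2 := by
        split_ifs at s2 with u1 u2
        · exact absurd s2 h01
        · exact u2
        · exact absurd s2 h12.symm
      have p3 : E2 ⊆ D2 := by
        split_ifs at s3 with u1 u2
        · exact absurd s3 h01
        · exact u2
        · exact absurd s3 h12.symm
      have t1 : z ∈ E1 → z ∈ D1 := fun h => p0 h
      have t2 : z ∈ E2 → z ∈ D1 := fun h => p1 h
      have t3 : z ∈ E1 → z ∈ D2 := fun h => p2 h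
      have t4 : z ∈ E2 → z ∈ D2 := fun h => p3 h
      exact prop_aux1 hk' hk t1 t3 t2 t4
    · rw [if_neg q0, if_neg p0] at s1 s2 s3
      have c0 : Disjoint D1 E1 := by
        rcases l0 with h | h | h
        · exact absurd h q0
        · exact absurd h p0
        · exact h
      have c1 : Disjoint D1 E2 := by
        split_ifs at s1 with u1 u2
        · exact absurd s1 h02
        · exact absurd s1 h12
        · rcases l1 with h | h | h
          · exact absurd h u1
          · exact absurd h u2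
          · exact h
      have c2 : Disjoint D2 E1 := by
        split_ifs at s2 with u1 u2
        · exact absurd s2 h02
        · exact absurd s2 h12
        · rcases l2 with h | h | h
          · exact absurd h u1
          · exact absurd h u2
          · exact h
      have c3 : Disjoint D2 E2 := by
        split_ifs at s3 with u1 u2
        · exact absurd s3 h02
        · exact absurd s3 h12
        · rcases l3 with h | h | h
          · exact absurd h u1
          · exact absurd h u2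
          · exact h
      have t1 : z ∈ D1 → z ∉ E1 := fun h h' => Set.disjoint_left.mp c0 h h'
      have t2 : z ∈ D1 → z ∉ E2 := fun h h' => Set.disjoint_left.mp c1 h h'
      have t3 : z ∈ D2 → z ∉ E1 := fun h h' => Set.disjoint_left.mp c2 h h'
      have t4 : z ∈ D2 → z ∉ E2 := fun h h' => Set.disjoint_left.mp c3 h h'
      exact prop_aux2 hk hk' t1 t2 t3 t4

/-! ### The laminar family -/

/-- the sets of the laminar family: upper sets of lengths, balls, and the empty set -/
def Lam (S : Set Y) : Prop :=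
  (∃ τ : ℕ∞, S = {y | τ ≤ y.h}) ∨
  (∃ (t s : ℕ) (u : ℕ → ZMod 2), S = {y | y.h = t ∧ ∀ j < s, y.w j = u j}) ∨ S = ∅

lemma lam_nested {S S' : Set Y} (h : Lam S) (h' : Lam S') : S ⊆ S' ∨ S' ⊆ S ∨ Disjoint S S' := by
  rcases h with ⟨τ, rfl⟩ | ⟨t, s, u, rfl⟩ | rfl
  · rcases h' with ⟨τ', rfl⟩ | ⟨t', s', u', rfl⟩ | rfl
    · rcases le_total τ τ' with h | h
      · right; left
        intro y hy
        exact h.trans hy
      · left
        intro y hy
        exact h.trans hy
    · by_cases h : τ ≤ t'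
      · right; left
        rintro y ⟨hy, _⟩
        change τ ≤ (y.h : ℕ∞)
        rw [hy]; exact h
      · right; right
        rw [Set.disjoint_left]
        rintro y hy ⟨hy', _⟩
        apply h
        rw [← hy']
        exact hy
    · right; left; exact Set.empty_subset _
  · rcases h' with ⟨τ', rfl⟩ | ⟨t', s', u', rfl⟩ | rfl
    · by_cases h : τ' ≤ t
      · left
        rintro y ⟨hy, _⟩
        change τ' ≤ (y.h : ℕ∞)
        rw [hy]; exact h
      · right; right
        rw [Set.disjoint_right]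
        rintro y hy ⟨hy', _⟩
        apply h
        rw [← hy']
        exact hy
    · by_cases hd : Disjoint {y : Y | y.h = t ∧ ∀ j < s, y.w j = u j}
          {y : Y | y.h = t' ∧ ∀ j < s', y.w j = u' j}
      · exact Or.inr (Or.inr hd)
      · rw [Set.not_disjoint_iff] at hd
        obtain ⟨y, ⟨h1, h2⟩, ⟨h3, h4⟩⟩ := hd
        rcases le_total s s' with h | h
        · right; left
          rintro z ⟨h5, h6⟩
          refine ⟨by rw [h5, ← h3, h1], fun j hj => ?_⟩
          rw [h6 j (by omega), ← h4 j (by omega), h2 j hj]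
        · left
          rintro z ⟨h5, h6⟩
          refine ⟨by rw [h5, ← h1, h3], fun j hj => ?_⟩
          rw [h6 j (by omega), ← h2 j (by omega), h4 j hj]
    · right; left; exact Set.empty_subset _
  · left; exact Set.empty_subset _

section
variable {ι : Type} [Fintype ι]

/-- thresholds -/
noncomputable def thr (a : ι → Y) (p : Sym ι) (c : ℕ) (b : Bool) : ℕ∞ :=
  if b then val a p + c else val a p + 1 - c

/-- sets of the first kind -/
def DH (a : ι → Y) (p : Sym ι) (c : ℕ) (b : Bool) : Set Y :=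
  {y | Ok a p ∧ thr a p c b ≤ y.h}

/-- sets of the second kind -/
def DB (a : ι → Y) (δ : ι → ZMod 2) (p : Sym ι) (c : ℕ) (b : Bool) : Set Y :=
  {y | Odd a y.h δ ∧ Ok a p ∧ thr a p c b ≤ W a y δ}

lemma lam_DH (a : ι → Y) (p : Sym ι) (c : ℕ) (b : Bool) : Lam (DH a p c b) := by
  by_cases h : Ok a p
  · left
    refine ⟨thr a p c b, ?_⟩
    ext y
    simp [DH, h]
  · right; right
    ext y
    simp [DH, h]

lemma odd_unique {a : ι → Y} {t t' : ℕ} {δ : ι → ZMod 2} (h : Odd a t δ) (h' : Odd a t' δ) :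
    t = t' := by
  by_contra hne
  have h1 := h t
  have h2 := h' t
  rw [if_pos rfl] at h1
  rw [if_neg hne, h1] at h2
  exact absurd h2 (by decide)

lemma lam_DB (a : ι → Y) (δ : ι → ZMod 2) (p : Sym ι) (c : ℕ) (b : Bool) :
    Lam (DB a δ p c b) := by
  by_cases hok : Ok a p
  swap
  · right; right
    ext y
    simp [DB, hok]
  by_cases hodd : ∃ t, Odd a t δ
  swap
  · right; right
    ext y
    simp only [DB, Set.mem_ofPred_eq, Set.mem_empty_iff_false, iff_false]
    rintro ⟨h1, _⟩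
    exact hodd ⟨_, h1⟩
  obtain ⟨t, ht⟩ := hodd
  rcases eq_or_ne (thr a p c b) ⊤ with htop | hfin
  · right; right
    ext y
    simp only [DB, Set.mem_ofPred_eq, Set.mem_empty_iff_false, iff_false]
    rintro ⟨_, _, h3⟩
    rw [htop] at h3
    have := h3.trans (W_le a y δ)
    simp at this
  obtain ⟨m, hm⟩ := ENat.ne_top_iff_exists.mp hfin
  by_cases hgood : m ≤ t ∧ ∀ i, δ i ≠ 0 → m ≤ (a i).h
  · right; left
    refine ⟨t, m, fun j => ∑ i, δ i * (a i).w j, ?_⟩
    have key : ∀ p q : ZMod 2, p + q = 0 ↔ p = q := by decide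
    ext y
    simp only [DB, Set.mem_ofPred_eq, ← hm, le_W]
    constructor
    · rintro ⟨h1, _, _, _, h5⟩
      exact ⟨odd_unique h1 ht, fun j hj => (key _ _).1 (h5 j hj)⟩
    · rintro ⟨rfl, h2⟩
      exact ⟨ht, hok, hgood.1, hgood.2, fun j hj => (key _ _).2 (h2 j hj)⟩
  · right; right
    ext y
    simp only [DB, Set.mem_ofPred_eq, Set.mem_empty_iff_false, iff_false, ← hm, le_W]
    rintro ⟨h1, _, h3, h4, _⟩
    exact hgood ⟨by rw [odd_unique ht h1]; exact h3, h4⟩

/-- the index type of the family attached to a parameter -/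
abbrev Idx (ι : Type) (N : ℕ) : Type :=
  (Sym ι × Fin (N + 1) × Bool) ⊕ ((ι → ZMod 2) × Sym ι × Fin (N + 1) × Bool)

/-- the family attached to a parameter -/
def fam (a : ι → Y) (N : ℕ) : Idx ι N → Set Y
  | Sum.inl (p, c, b) => DH a p c b
  | Sum.inr (δ, p, c, b) => DB a δ p c b

lemma lam_fam (a : ι → Y) (N : ℕ) (k : Idx ι N) : Lam (fam a N k) := by
  rcases k with ⟨p, c, b⟩ | ⟨δ, p, c, b⟩
  · exact lam_DH a p c b
  · exact lam_DB a δ p c b

lemma enat_flip (u : ℕ∞) (m c : ℕ) : (m : ℕ∞) + c ≤ u ↔ ¬ (u + 1 - c ≤ m) := by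
  cases u using ENat.recTopCoe with
  | top => simp
  | coe u =>
    norm_cast
    omega

lemma cmp_of_thr {N : ℕ} {u : ℕ∞} {m m' : ℕ}
    (h : ∀ c : ℕ, c ≤ N → ((u + c ≤ m ↔ u + c ≤ m') ∧ (u + 1 - c ≤ m ↔ u + 1 - c ≤ m'))) :
    Cmp N u u m m' := by
  intro c hc
  refine ⟨(h c hc).1, ?_⟩
  rw [enat_flip, enat_flip, (h c hc).2]

/-- Two points lying in the same sets of the family attached to `a` are conjugate over `a` up to
level `N`. -/
lemma iso_of_fam {N : ℕ} {a : ι → Y} {x x' : Y} (h : ∀ k, x ∈ fam a N k ↔ x' ∈ fam a N k) :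
    Iso N (cons a x) (cons a x') := by
  have hH : ∀ p, Ok a p → Cmp N (val a p) (val a p) x.h x'.h := by
    intro p hp
    apply cmp_of_thr
    intro c hc
    have h1 := h (Sum.inl (p, ⟨c, by omega⟩, true))
    have h2 := h (Sum.inl (p, ⟨c, by omega⟩, false))
    simp only [fam, DH, Set.mem_ofPred_eq, hp, true_and, thr, if_true] at h1 h2
    exact ⟨h1, h2⟩
  refine iso_ext (fun p q _ _ => fun c _ => ⟨Iff.rfl, Iff.rfl⟩) hH ?_
  intro δ hδ p hp
  obtain ⟨i, hi⟩ := odd_exists hδ
  have e := (hH (.ht i) trivial).eq (by simp [val, hi])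
  have e' : x.h = x'.h := by
    simp only [val, hi] at e
    exact_mod_cast e
  have hδ' : Odd a x'.h δ := by rw [← e']; exact hδ
  obtain ⟨m, hm⟩ := W_fin a x δ
  obtain ⟨m', hm'⟩ := W_fin a x' δ
  rw [hm, hm']
  apply cmp_of_thr
  intro c hc
  have h1 := h (Sum.inr (δ, p, ⟨c, by omega⟩, true))
  have h2 := h (Sum.inr (δ, p, ⟨c, by omega⟩, false))
  simp only [fam, DB, Set.mem_ofPred_eq, hp, true_and, thr, if_true, hδ, hδ', hm, hm'] at h1 h2
  exact ⟨h1, h2⟩

end

/-- the bijection between the variables of `φ(x;y)` and an extended family -/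
def oneVar (m : ℕ) : Fin 1 ⊕ Fin m ≃ Option (Fin m) where
  toFun := fun x => match x with
    | Sum.inl _ => none
    | Sum.inr i => some i
  invFun := fun o => match o with
    | none => Sum.inl 0
    | some i => Sum.inr i
  left_inv := by
    rintro (i | i)
    · simp only
      congr 1
      exact Subsingleton.elim _ _
    · rfl
  right_inv := by
    rintro (_ | i) <;> rfl

lemma elim_eq_cons {m : ℕ} (x : Fin 1 → Y) (a : Fin m → Y) :
    Sum.elim x a = cons a (x 0) ∘ oneVar m := by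
  funext z
  rcases z with i | i
  · have : i = 0 := Subsingleton.elim _ _
    rw [this]; rfl
  · rfl

lemma formula_fam {m : ℕ} (φ : L.Formula (Fin 1 ⊕ Fin m)) :
    ∃ N : ℕ, ∀ a : Fin m → Y, ∃ β : Set (Idx (Fin m) N → Prop),
      ∀ x : Y, φ.Realize (Sum.elim (fun _ => x) a) ↔ (fun k => x ∈ fam a N k) ∈ β := by
  obtain ⟨N, hN⟩ := invariance' φ
  refine ⟨N, fun a => ⟨{μ | ∃ x : Y, μ = (fun k => x ∈ fam a N k) ∧
    φ.Realize (Sum.elim (fun _ => x) a)}, fun x => ?_⟩⟩
  constructor
  · intro h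
    exact ⟨x, rfl, h⟩
  · rintro ⟨x', h1, h2⟩
    have h3 : ∀ k, x ∈ fam a N k ↔ x' ∈ fam a N k := fun k => by
      have := congrFun h1 k
      exact iff_of_eq this
    have h4 := (iso_of_fam h3).equiv (oneVar m)
    have e1 := elim_eq_cons (fun _ => x) a
    have e2 := elim_eq_cons (fun _ => x') a
    rw [← e1, ← e2] at h4
    exact (hN _ _ h4).2 h2

/-- there are no large grids in the torsor tree -/
lemma no_grid_Y {m m' : ℕ} (φ : L.Formula (Fin 1 ⊕ Fin m)) (ψ : L.Formula (Fin 1 ⊕ Fin m')) :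
    ∃ n : ℕ, ∀ (a : Fin n → Fin m → Y) (c : Fin n → Fin m' → Y),
      ¬ ∀ i j : Fin n, ∃ x : Y,
        (∀ k, φ.Realize (Sum.elim (fun _ => x) (a k)) ↔ k = i) ∧
        (∀ l, ψ.Realize (Sum.elim (fun _ => x) (c l)) ↔ l = j) := by
  obtain ⟨N, hN⟩ := formula_fam φ
  obtain ⟨N', hN'⟩ := formula_fam ψ
  obtain ⟨n, hn⟩ := no_grid (X := Y) (K := Idx (Fin m) N) (K' := Idx (Fin m') N')
  refine ⟨n, fun a c h => ?_⟩
  choose x hx1 hx2 using h
  choose β hβ using hN
  choose γ hγ using hN'
  apply hn (fun i => fam (a i) N) (fun j => fam (c j) N')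
    (fun i k j k' => lam_nested (lam_fam _ _ _) (lam_fam _ _ _))
    (fun i => β (a i)) (fun j => γ (c j)) x
  intro i j
  refine ⟨fun k => ?_, fun k => ?_⟩
  · rw [← hβ, hx1]
  · rw [← hγ, hx2]

end Pool.Agent.DpM
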