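import Mathlib
import Pool.Agent.DpM.Dp

/-!
Transfer: the complete theory of the torsor tree is dp-minimal.
-/

namespace Pool.Agent.DpM

open FirstOrder Language Finset

universe u

section
variable {L' : FirstOrder.Language.{0, 0}}

/-- body of the grid sentence -/
noncomputable def litF {α : Type} (φ : L'.Formula α) (b : Prop) [Decidable b] : L'.Formula α :=
  if b then φ else φ.not

lemma realize_litF {α : Type} (φ : L'.Formula α) (b : Prop) [Decidable b] {N : Type u}
    [L'.Structure N] (v : α → N) : (litF φ b).Realize v ↔ (φ.Realize v ↔ b) := by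
  unfold litF
  by_cases h : b <;> simp [h]

/-- the sentence expressing the existence of an `n × n` grid -/
noncomputable def gridS {m m' : ℕ} (φ : L'.Formula (Fin 1 ⊕ Fin m)) (ψ : L'.Formula (Fin 1 ⊕ Fin m'))
    (n : ℕ) : L'.Sentence :=
  Formula.iExs ((Fin n × Fin m) ⊕ (Fin n × Fin m')) (Formula.iInf (fun ij : Fin n × Fin n =>
    Formula.iExs (Fin 1)
      ((Formula.iInf (fun k : Fin n => litF (φ.relabel (fun z : Fin 1 ⊕ Fin m => match z with
          | Sum.inl x => Sum.inr x
          | Sum.inr y => Sum.inl (Sum.inr (Sum.inl (k, y))))) (k = ij.1))) ⊓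
       (Formula.iInf (fun l : Fin n => litF (ψ.relabel (fun z : Fin 1 ⊕ Fin m' => match z with
          | Sum.inl x => Sum.inr x
          | Sum.inr y => Sum.inl (Sum.inr (Sum.inr (l, y))))) (l = ij.2))))))

lemma realize_gridS {m m' : ℕ} (φ : L'.Formula (Fin 1 ⊕ Fin m)) (ψ : L'.Formula (Fin 1 ⊕ Fin m'))
    (n : ℕ) {N : Type u} [L'.Structure N] :
    N ⊨ gridS φ ψ n ↔ ∃ (a : Fin n → Fin m → N) (c : Fin n → Fin m' → N),
      ∀ i j : Fin n, ∃ x : Fin 1 → N,
        (∀ k, φ.Realize (Sum.elim x (a k)) ↔ k = i) ∧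
        (∀ l, ψ.Realize (Sum.elim x (c l)) ↔ l = j) := by
  unfold Sentence.Realize gridS
  simp only [Formula.realize_iExs, Formula.realize_iInf, Formula.realize_inf, realize_litF,
    Formula.realize_relabel]
  constructor
  · rintro ⟨f, hf⟩
    refine ⟨fun k y => f (Sum.inl (k, y)), fun l y => f (Sum.inr (l, y)), fun i j => ?_⟩
    obtain ⟨x, h1, h2⟩ := hf (i, j)
    refine ⟨x, fun k => ?_, fun l => ?_⟩
    · rw [← h1 k]
      apply iff_of_eq
      congr 1
      funext z
      rcases z with z | z <;> rfl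
    · rw [← h2 l]
      apply iff_of_eq
      congr 1
      funext z
      rcases z with z | z <;> rfl
  · rintro ⟨a, c, h⟩
    refine ⟨Sum.elim (fun q => a q.1 q.2) (fun q => c q.1 q.2), fun ij => ?_⟩
    obtain ⟨x, h1, h2⟩ := h ij.1 ij.2
    refine ⟨x, fun k => ?_, fun l => ?_⟩
    · rw [← h1 k]
      apply iff_of_eq
      congr 1
      funext z
      rcases z with z | z <;> rfl
    · rw [← h2 l]
      apply iff_of_eq
      congr 1
      funext z
      rcases z with z | z <;> rfl

end

theorem dpMinimal_Y : DpMinimal.{u} (L.completeTheory Y) := by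
  intro N _ _ _ m m' φ ψ a c h
  obtain ⟨n, hn⟩ := no_grid_Y φ ψ
  have h1 : N ⊨ gridS φ ψ n := by
    rw [realize_gridS]
    refine ⟨fun k => a k, fun l => c l, fun i j => ?_⟩
    obtain ⟨x, e1, e2, e3, e4⟩ := h i j (Finset.range n)
    refine ⟨x, fun k => ?_, fun l => ?_⟩
    · constructor
      · intro hk
        by_contra hne
        exact e2 k (Finset.mem_range.mpr k.2) (fun hh => hne (Fin.ext hh)) hk
      · rintro rfl
        exact e1
    · constructor
      · intro hk
        by_contra hne
        exact e4 l (Finset.mem_range.mpr l.2) (fun hh => hne (Fin.ext hh)) hk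
      · rintro rfl
        exact e3
  have h2 : Y ⊨ gridS φ ψ n := (realize_iff_of_model_completeTheory Y N _).1 h1
  rw [realize_gridS] at h2
  obtain ⟨a', c', h3⟩ := h2
  apply hn a' c'
  intro i j
  obtain ⟨x, e1, e2⟩ := h3 i j
  have hx : (fun _ => x 0) = x := by
    funext z
    rw [Subsingleton.elim z 0]
  refine ⟨x 0, fun k => ?_, fun l => ?_⟩
  · rw [hx]; exact e1 k
  · rw [hx]; exact e2 l

end Pool.Agent.DpM
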