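import Mathlib
import Pool.Agent.DpM.DpMin

/-!
Transfer of first-order facts from the torsor tree to its elementary extensions, and global types.
-/

namespace Pool.Agent.DpM

open FirstOrder Language Finset

universe u

section
variable {U : Type u} [L.Structure U]

/-- the relation in a structure -/
def PU (x y z t : U) : Prop := Structure.RelMap P ![x, y, z, t]

lemma PU_Y (x y z t : Y) : PU x y z t ↔ PY x y z t := Iff.rfl

/-- atomic formula -/
def atP {α : Type} (a b c d : α) : L.Formula α :=
  P.formula ![Term.var a, Term.var b, Term.var c, Term.var d]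

@[simp]
lemma realize_atP {α : Type} (a b c d : α) (v : α → U) :
    (atP a b c d).Realize v ↔ PU (v a) (v b) (v c) (v d) := by
  unfold atP PU
  rw [Formula.realize_rel]
  apply iff_of_eq
  congr 1
  funext i
  fin_cases i <;> rfl

variable (j : Y ↪ₑ[L] U)

lemma transfer {α : Type} (φ : L.Formula α) (c : α → Y) : φ.Realize (j ∘ c) ↔ φ.Realize c :=
  j.map_formula φ c

lemma transfer_all {α β : Type} [Finite β] (φ : L.Formula (α ⊕ β)) (c : α → Y) :
    (∀ x : β → U, φ.Realize (Sum.elim (j ∘ c) x)) ↔ ∀ x : β → Y, φ.Realize (Sum.elim c x) := by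
  have := transfer j (Formula.iAlls β φ) c
  rw [Formula.realize_iAlls, Formula.realize_iAlls] at this
  exact this

lemma transfer_ex {α β : Type} [Finite β] (φ : L.Formula (α ⊕ β)) (c : α → Y) :
    (∃ x : β → U, φ.Realize (Sum.elim (j ∘ c) x)) ↔ ∃ x : β → Y, φ.Realize (Sum.elim c x) := by
  have := transfer j (Formula.iExs β φ) c
  rw [Formula.realize_iExs, Formula.realize_iExs] at this
  exact this

/-! ### Facts about elementary extensions -/

lemma PY_self (y y' : Y) : PY y y y' y' ↔ y'.h ≤ y.h := by
  unfold PY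
  have key2 : ∀ p : ZMod 2, p + p = 0 := by decide
  constructor
  · rintro ⟨_, _, h, _⟩; exact h
  · intro h
    exact ⟨rfl, rfl, h, fun j _ => by rw [key2, key2]⟩

include j in
lemma PU_trans (x y z : U) (h1 : PU x x y y) (h2 : PU y y z z) : PU x x z z := by
  have := (transfer_all j (α := Empty) (β := Fin 3)
    ((atP (Sum.inr 0) (Sum.inr 0) (Sum.inr 1) (Sum.inr 1)).imp
      ((atP (Sum.inr 1) (Sum.inr 1) (Sum.inr 2) (Sum.inr 2)).imp
        (atP (Sum.inr 0) (Sum.inr 0) (Sum.inr 2) (Sum.inr 2)))) Empty.elim).2 (by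
    intro x
    simp only [Formula.realize_imp, realize_atP, Sum.elim_inr, PU_Y, PY_self]
    intro h1 h2
    exact h2.trans h1) ![x, y, z]
  simp only [Formula.realize_imp, realize_atP, Sum.elim_inr] at this
  exact this h1 h2

include j in
lemma PU_total (x y : U) : PU x x y y ∨ PU y y x x := by
  have := (transfer_all j (α := Empty) (β := Fin 2)
    ((atP (Sum.inr 0) (Sum.inr 0) (Sum.inr 1) (Sum.inr 1)) ⊔
      (atP (Sum.inr 1) (Sum.inr 1) (Sum.inr 0) (Sum.inr 0))) Empty.elim).2 (by
    intro x
    simp only [Formula.realize_sup, realize_atP, Sum.elim_inr, PU_Y, PY_self]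
    exact le_total _ _) ![x, y]
  simp only [Formula.realize_sup, realize_atP, Sum.elim_inr] at this
  exact this

include j in
lemma PU_unique (x1 x2 y y' z : U) (h1 : PU x1 x2 y z) (h2 : PU x1 x2 y' z) : y = y' := by
  have := (transfer_all j (α := Empty) (β := Fin 5)
    ((atP (Sum.inr 0) (Sum.inr 1) (Sum.inr 2) (Sum.inr 4)).imp
      ((atP (Sum.inr 0) (Sum.inr 1) (Sum.inr 3) (Sum.inr 4)).imp
        (Term.equal (Term.var (Sum.inr 2)) (Term.var (Sum.inr 3))))) Empty.elim).2 (by
    intro x
    simp only [Formula.realize_imp, realize_atP, Sum.elim_inr, PU_Y, Formula.realize_equal,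
      Term.realize_var]
    rintro ⟨_, h1, _, h2⟩ ⟨_, h3, _, h4⟩
    apply Y.ext (by rw [h1, h3])
    funext i
    have key : ∀ p q r s : ZMod 2, p = q + r → p = s + r → q = s := by decide
    by_cases hi : i < (x 2).h
    · exact key _ _ _ _ (h2 i hi) (h4 i (by omega))
    · rw [(x 2).supp i (by omega), (x 3).supp i (by omega)]) ![x1, x2, y, y', z]
  simp only [Formula.realize_imp, realize_atP, Sum.elim_inr, Formula.realize_equal,
      Term.realize_var] at this
  exact this h1 h2

/-- there are finitely many words of bounded length -/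
lemma finite_bounded (n : ℕ) : Finite {y : Y // y.h ≤ n} := by
  let f : {y : Y // y.h ≤ n} → Fin (n + 1) × (Fin n → ZMod 2) :=
    fun y => (⟨y.1.h, by have := y.2; omega⟩, fun i => y.1.w i)
  apply Finite.of_injective f
  rintro ⟨y, hy⟩ ⟨y', hy'⟩ h
  simp only [f, Prod.mk.injEq, Fin.mk.injEq] at h
  apply Subtype.ext
  apply Y.ext h.1
  funext i
  by_cases hi : i < n
  · exact congrFun h.2 ⟨i, hi⟩
  · rw [y.supp i (by omega), y'.supp i (by omega)]

/-- elements of an elementary extension below an old element are old -/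
lemma mem_range_of_le (m : Y) (y : U) (h : PU (j m) (j m) y y) : y ∈ Set.range j := by
  have := finite_bounded m.h
  have := (transfer_all j (α := Option {y : Y // y.h ≤ m.h}) (β := Fin 1)
    ((atP (Sum.inl none) (Sum.inl none) (Sum.inr 0) (Sum.inr 0)).imp
      (Formula.iSup (fun i : {y : Y // y.h ≤ m.h} =>
        Term.equal (Term.var (Sum.inl (some i))) (Term.var (Sum.inr 0)))))
      (fun o => o.elim m (fun i => i.1))).2 (by
    intro x
    simp only [Formula.realize_imp, realize_atP, Sum.elim_inr, PU_Y, Sum.elim_inl,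
      Option.elim_none, PY_self]
    rw [Formula.realize_iSup]
    intro h
    refine ⟨⟨x 0, h⟩, ?_⟩
    simp [Formula.realize_equal]) ![y]
  simp only [Formula.realize_imp, realize_atP, Sum.elim_inr, Sum.elim_inl, Function.comp_apply,
      Option.elim_none] at this
  have h2 := this h
  rw [Formula.realize_iSup] at h2
  obtain ⟨i, hi⟩ := h2
  simp only [Formula.realize_equal, Term.realize_var, Sum.elim_inl, Function.comp_apply,
    Option.elim_some, Sum.elim_inr] at hi
  exact ⟨i.1, hi⟩

/-- new elements are above the old ones -/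
lemma above {b : U} (hb : b ∉ Set.range j) (m : Y) : PU b b (j m) (j m) := by
  rcases PU_total j b (j m) with h | h
  · exact h
  · exact absurd (mem_range_of_le j m b h) hb

end

section
variable {L' : FirstOrder.Language.{0, 0}} {U : Type u} [L'.Structure U] {k : ℕ}
  {p : Set (PForm L' U k)}

lemma holds_neg (θ : PForm L' U k) (x : Fin k → U) : θ.neg.Holds x ↔ ¬ θ.Holds x := by
  unfold PForm.neg PForm.Holds
  rw [Formula.realize_not]

lemma IsGlobalType.mem_of_imp (hp : IsGlobalType p) {I : Type} [Finite I]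
    {θs : I → PForm L' U k} (h : ∀ i, θs i ∈ p) {κ : Type} [Finite κ] {θ : κ → PForm L' U k}
    (himp : ∀ x, (∀ i, (θs i).Holds x) → ∃ l, (θ l).Holds x) : ∃ l, θ l ∈ p := by
  by_contra hc
  push Not at hc
  have h1 : ∀ l, (θ l).neg ∈ p := fun l => (hp.complete (θ l)).resolve_left (hc l)
  obtain ⟨x, hx⟩ := hp.consistent (Set.range θs ∪ Set.range (fun l => (θ l).neg)) (by
    rintro _ (⟨i, rfl⟩ | ⟨l, rfl⟩)
    · exact h i
    · exact h1 l) ((Set.finite_range _).union (Set.finite_range _))
  obtain ⟨l, hl⟩ := himp x (fun i => hx _ (Or.inl ⟨i, rfl⟩))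
  have := hx _ (Or.inr ⟨l, rfl⟩)
  rw [holds_neg] at this
  exact this hl

end

end Pool.Agent.DpM
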