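import Mathlib
import Pool.Agent.DpM.Transfer

/-!
The formula is contained in no global type definable over the torsor tree.
-/

namespace Pool.Agent.DpM

open FirstOrder Language Finset

universe u

/-- the zero word of length `s` -/
def zer (s : ℕ) : Y := ⟨s, fun _ => 0, fun _ _ => rfl⟩

/-- the word `1` of length one -/
def wone : Y := ⟨1, fun j => if j = 0 then 1 else 0, fun j hj => by
  have : j ≠ 0 := by omega
  simp [this]⟩

/-- The formula: `x₁ + x₂` starts with the digit `1` (this is `P(x₁, x₂, 1, 0)`), and the length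
of `x₁` exceeds the length of the parameter. -/
def phi : L.Formula (Fin 2 ⊕ Fin 3) :=
  (atP (Sum.inl 0) (Sum.inl 1) (Sum.inr 1) (Sum.inr 2)) ⊓
    (atP (Sum.inr 0) (Sum.inr 0) (Sum.inl 0) (Sum.inl 0)).not

section
variable {U : Type u} [L.Structure U] (j : Y ↪ₑ[L] U)

/-- the formula with its parameters -/
def theta (b : U) : PForm L U 2 := ⟨3, phi, ![b, j wone, j (zer 1)]⟩

lemma theta_holds (b : U) (x : Fin 2 → U) : (theta j b).Holds x ↔
    PU (x 0) (x 1) (j wone) (j (zer 1)) ∧ ¬ PU b b (x 0) (x 0) := by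
  unfold PForm.Holds theta phi
  simp [Formula.realize_inf, Formula.realize_not]

end

/-! ### The automorphism -/

/-- adds the first digit to the digit number `n` of words of length more than `n` -/
def sig (n : ℕ) (y : Y) : Y :=
  ⟨y.h, fun j => if j = n ∧ n < y.h then y.w j + y.w 0 else y.w j, fun j hj => by
    have h1 : ¬ (j = n ∧ n < y.h) := by omega
    simp only [h1, if_false]
    exact y.supp j hj⟩

lemma sig_sig {n : ℕ} (hn : 1 ≤ n) (y : Y) : sig n (sig n y) = y := by
  refine Y.ext (by rfl) ?_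
  funext i
  have key : ∀ p q : ZMod 2, p + q + q = p := by decide
  have h0 : ¬ ((0 : ℕ) = n ∧ n < y.h) := by omega
  change (if i = n ∧ n < y.h then (if i = n ∧ n < y.h then y.w i + y.w 0 else y.w i) +
    (if (0 : ℕ) = n ∧ n < y.h then y.w 0 + y.w 0 else y.w 0) else
    (if i = n ∧ n < y.h then y.w i + y.w 0 else y.w i)) = y.w i
  rw [if_neg h0]
  by_cases h : i = n ∧ n < y.h
  · rw [if_pos h, if_pos h]
    exact key _ _
  · rw [if_neg h, if_neg h]

lemma sig_PY {n : ℕ} {y1 y2 z1 z2 : Y} (h : PY y1 y2 z1 z2) :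
    PY (sig n y1) (sig n y2) (sig n z1) (sig n z2) := by
  obtain ⟨h1, h2, h3, h4⟩ := h
  refine ⟨h1, h2, h3, fun i hi => ?_⟩
  change i < z1.h at hi
  change (if i = n ∧ n < y1.h then y1.w i + y1.w 0 else y1.w i) +
    (if i = n ∧ n < y2.h then y2.w i + y2.w 0 else y2.w i) =
    (if i = n ∧ n < z1.h then z1.w i + z1.w 0 else z1.w i) +
    (if i = n ∧ n < z2.h then z2.w i + z2.w 0 else z2.w i)
  have e1 := h4 i hi
  have e2 := h4 0 (by omega)
  by_cases h : i = n
  · have g1 : n < y1.h := by omega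
    have g2 : n < y2.h := by omega
    have g3 : n < z1.h := by omega
    have g4 : n < z2.h := by omega
    simp only [h, g1, g2, g3, g4, and_self, if_true]
    rw [h] at e1
    have key : ∀ a b c d a' b' c' d' : ZMod 2, a + b = c + d → a' + b' = c' + d' →
        a + a' + (b + b') = c + c' + (d + d') := by
      intro a b c d a' b' c' d' g g'
      linear_combination g + g'
    exact key _ _ _ _ _ _ _ _ e1 e2
  · simp only [h, false_and, if_false]
    exact e1

/-- the automorphism -/
def sigEquiv (n : ℕ) (hn : 1 ≤ n) : Y ≃[L] Y where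
  toFun := sig n
  invFun := sig n
  left_inv := sig_sig hn
  right_inv := sig_sig hn
  map_fun' := fun f _ => Empty.elim f
  map_rel' := fun {k} r xs => by
    cases r
    constructor
    · intro h
      have := sig_PY (n := n) h
      simp only [Function.comp_apply, sig_sig hn] at this
      exact this
    · intro h
      exact sig_PY h

lemma sig_fix {n : ℕ} {y : Y} (h : y.h ≤ n) : sig n y = y := by
  refine Y.ext (by rfl) ?_
  funext i
  have h1 : ¬ (i = n ∧ n < y.h) := by omega
  change (if i = n ∧ n < y.h then y.w i + y.w 0 else y.w i) = y.w i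
  rw [if_neg h1]

lemma sig_zer (n s : ℕ) : sig n (zer s) = zer s := by
  refine Y.ext (by rfl) ?_
  funext i
  change (if i = n ∧ n < s then (0 : ZMod 2) + 0 else 0) = 0
  split_ifs <;> simp

lemma realize_sig {α : Type} {n : ℕ} (hn : 1 ≤ n) (φ : L.Formula α) (c : α → Y) :
    φ.Realize (sig n ∘ c) ↔ φ.Realize c :=
  StrongHomClass.realize_formula (sigEquiv n hn) φ

section
variable {U : Type u} [L.Structure U] (j : Y ↪ₑ[L] U)

/-- the formula stating that `x₁ + x₂` extends `y₁ + y₂` -/
def zeta : L.Formula (Fin 2 ⊕ Fin 2) := atP (Sum.inl 0) (Sum.inl 1) (Sum.inr 0) (Sum.inr 1)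

theorem not_definable {b : U} (hb : b ∉ Set.range j) (p : Set (PForm L U 2))
    (hp : IsGlobalType p) (hdef : DefinableOver j p) : theta j b ∉ p := by
  intro hmem
  obtain ⟨r, dz, c, hdz⟩ := hdef 2 zeta
  -- choice of n
  obtain ⟨n, hn1, hn⟩ : ∃ n : ℕ, 1 ≤ n ∧ ∀ i, (c i).h ≤ n := by
    refine ⟨(Finset.univ.sup (fun i => (c i).h)) + 1, by omega, fun i => ?_⟩
    have := Finset.le_sup (f := fun i => (c i).h) (Finset.mem_univ i)
    omega
  -- existence of β
  have hfin := finite_bounded (n + 1)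
  obtain ⟨β, hβ⟩ : ∃ β : {y : Y // y.h ≤ n + 1},
      (⟨2, zeta, ![j β.1, j (zer (n + 1))]⟩ : PForm L U 2) ∈ p := by
    apply hp.mem_of_imp (I := Unit) (θs := fun _ => theta j b) (fun _ => hmem)
    intro x hx
    have hx' := hx ()
    rw [theta_holds] at hx'
    obtain ⟨h1, h2⟩ := hx'
    have h3 : ¬ PU (j (zer (n + 1))) (j (zer (n + 1))) (x 0) (x 0) := fun h3 =>
      h2 (PU_trans j _ _ _ (above j hb _) h3)
    have := (transfer_all j (α := Option (Fin 2) ⊕ {y : Y // y.h ≤ n + 1}) (β := Fin 2)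
      (((atP (Sum.inr 0) (Sum.inr 1) (Sum.inl (Sum.inl (some 0))) (Sum.inl (Sum.inl (some 1)))) ⊓
        (atP (Sum.inl (Sum.inl none)) (Sum.inl (Sum.inl none)) (Sum.inr 0) (Sum.inr 0)).not).imp
        (Formula.iSup (fun i : {y : Y // y.h ≤ n + 1} =>
          atP (Sum.inr 0) (Sum.inr 1) (Sum.inl (Sum.inr i)) (Sum.inl (Sum.inl none)))))
      (Sum.elim (fun o => o.elim (zer (n + 1)) ![wone, zer 1]) (fun i => i.1))).2 (by
      intro x
      simp only [Formula.realize_imp, Formula.realize_inf, Formula.realize_not, realize_atP,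
        Sum.elim_inr, Sum.elim_inl, Option.elim_none, Option.elim_some, PU_Y, PY_self]
      rw [Formula.realize_iSup]
      rintro ⟨⟨g1, _, _, g4⟩, g5⟩
      simp only [zer] at g5
      refine ⟨⟨⟨n + 1, fun i => if i < n + 1 then (x 0).w i + (x 1).w i else 0, fun i hi => by
        rw [if_neg (by omega)]⟩, le_rfl⟩, ?_⟩
      simp only [realize_atP, Sum.elim_inr, Sum.elim_inl, Option.elim_none, PU_Y]
      refine ⟨g1, rfl, by simp only; omega, fun i hi => ?_⟩
      simp only at hi
      simp only [zer, hi, if_true, add_zero]) x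
    simp only [Formula.realize_imp, Formula.realize_inf, Formula.realize_not, realize_atP,
        Sum.elim_inr, Sum.elim_inl, Option.elim_none, Option.elim_some,
        Function.comp_apply] at this
    have h4 := this ⟨h1, h3⟩
    rw [Formula.realize_iSup] at h4
    obtain ⟨i, hi⟩ := h4
    refine ⟨i, ?_⟩
    simp only [realize_atP, Sum.elim_inr, Sum.elim_inl, Option.elim_none,
        Function.comp_apply] at hi
    unfold PForm.Holds zeta
    simp only [realize_atP, Sum.elim_inl, Sum.elim_inr, Matrix.cons_val_zero, Matrix.cons_val_one]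
    exact hi
  obtain ⟨β, hβn⟩ := β
  simp only at hβ
  -- properties of β
  obtain ⟨hβh, hβ0⟩ : β.h = n + 1 ∧ β.w 0 = 1 := by
    obtain ⟨x, hx⟩ := hp.consistent {theta j b, ⟨2, zeta, ![j β, j (zer (n + 1))]⟩} (by
      intro θ hθ
      rcases hθ with rfl | rfl
      · exact hmem
      · exact hβ) (by simp)
    have h1 := hx _ (Or.inl rfl)
    have h2 := hx _ (Or.inr rfl)
    rw [theta_holds] at h1
    have h1 := h1.1
    simp only [PForm.Holds, zeta, realize_atP, Sum.elim_inl, Sum.elim_inr, Matrix.cons_val_zero,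
      Matrix.cons_val_one] at h2
    have := (transfer_ex j (α := Fin 4) (β := Fin 2)
      ((atP (Sum.inr 0) (Sum.inr 1) (Sum.inl 0) (Sum.inl 1)) ⊓
        (atP (Sum.inr 0) (Sum.inr 1) (Sum.inl 2) (Sum.inl 3)))
      ![wone, zer 1, β, zer (n + 1)]).1 ⟨x, by
        simp only [Formula.realize_inf, realize_atP, Sum.elim_inr, Sum.elim_inl,
          Function.comp_apply]
        exact ⟨h1, h2⟩⟩
    obtain ⟨y, hy⟩ := this
    simp only [Formula.realize_inf, realize_atP, Sum.elim_inr, Sum.elim_inl, PU_Y] at hy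
    obtain ⟨⟨_, _, _, g1⟩, ⟨_, g3, _, g2⟩⟩ := hy
    have g3' : β.h = n + 1 := g3
    refine ⟨g3', ?_⟩
    have k1 : (y 0).w 0 + (y 1).w 0 = 1 + 0 := g1 0 (Nat.one_pos)
    have k2 : (y 0).w 0 + (y 1).w 0 = β.w 0 + 0 := g2 0 (by
      change 0 < β.h
      omega)
    rw [k1] at k2
    simpa using k2.symm
  -- the automorphism
  have h1 := (hdz ![j β, j (zer (n + 1))]).1 hβ
  have e1 : (Sum.elim ![j β, j (zer (n + 1))] (j ∘ c) : Fin 2 ⊕ Fin r → U) =
      j ∘ (Sum.elim ![β, zer (n + 1)] c) := by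
    funext z
    rcases z with z | z
    · fin_cases z <;> rfl
    · rfl
  rw [e1, transfer] at h1
  rw [← realize_sig hn1] at h1
  have e2 : (sig n ∘ Sum.elim ![β, zer (n + 1)] c : Fin 2 ⊕ Fin r → Y) =
      Sum.elim ![sig n β, zer (n + 1)] c := by
    funext z
    rcases z with z | z
    · fin_cases z
      · rfl
      · exact sig_zer _ _
    · exact sig_fix (hn z)
  rw [e2, ← transfer j] at h1
  have e3 : j ∘ (Sum.elim ![sig n β, zer (n + 1)] c : Fin 2 ⊕ Fin r → Y) =
      (Sum.elim ![j (sig n β), j (zer (n + 1))] (j ∘ c)) := by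
    funext z
    rcases z with z | z
    · fin_cases z <;> rfl
    · rfl
  rw [e3] at h1
  have h2 := (hdz ![j (sig n β), j (zer (n + 1))]).2 h1
  obtain ⟨x, hx⟩ := hp.consistent {⟨2, zeta, ![j (sig n β), j (zer (n + 1))]⟩,
      ⟨2, zeta, ![j β, j (zer (n + 1))]⟩} (by
      intro θ hθ
      rcases hθ with rfl | rfl
      · exact h2
      · exact hβ) (by simp)
  have g1 := hx _ (Or.inl rfl)
  have g2 := hx _ (Or.inr rfl)
  simp only [PForm.Holds, zeta, realize_atP, Sum.elim_inl, Sum.elim_inr, Matrix.cons_val_zero,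
      Matrix.cons_val_one] at g1 g2
  have g3 := j.injective (PU_unique j _ _ _ _ _ g1 g2)
  have g4 : (sig n β).w n = β.w n := by rw [g3]
  have g5 : (sig n β).w n = β.w n + β.w 0 := by
    change (if n = n ∧ n < β.h then β.w n + β.w 0 else β.w n) = _
    rw [if_pos ⟨rfl, by omega⟩]
  rw [g5, hβ0] at g4
  have key : ∀ p : ZMod 2, p + 1 ≠ p := by decide
  exact key _ g4

end

end Pool.Agent.DpM
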