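import Mathlib
import Pool.Agent.DpM.NotDef

/-!
Constancy of formulas on the sets of long pairs with a prescribed beginning of the sum.
-/

namespace Pool.Agent.DpM

open FirstOrder Language Finset

universe u

/-- the word `1 0 ... 0 1` of length `n + 2` -/
def gam (n : ℕ) : Y := ⟨n + 2, fun j => if j = 0 ∨ j = n + 1 then 1 else 0, fun j hj => by
  have : ¬ (j = 0 ∨ j = n + 1) := by omega
  rw [if_neg this]⟩

lemma gam_incompat {n n' : ℕ} (h : n < n') : (gam n).w (n + 1) ≠ (gam n').w (n + 1) := by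
  change (if n + 1 = 0 ∨ n + 1 = n + 1 then (1 : ZMod 2) else 0) ≠
    (if n + 1 = 0 ∨ n + 1 = n' + 1 then (1 : ZMod 2) else 0)
  rw [if_pos (Or.inr rfl), if_neg (by omega)]
  decide

/-- `n` is hit by the family `d` -/
def Hit {m : ℕ} (d : Fin m → Y) (n : ℕ) : Prop :=
  ∃ δ : Fin m → ZMod 2, ∀ i < n + 2, G d δ i = (gam n).w i

lemma hit_bound {m : ℕ} (d : Fin m → Y) (S : Finset ℕ) (hS : ∀ n ∈ S, Hit d n) :
    S.card ≤ Fintype.card (Fin m → ZMod 2) := by
  classical
  have hS' : ∀ n : S, Hit d n.1 := fun n => hS n.1 n.2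
  choose f hf using hS'
  have hinj : Function.Injective f := by
    intro n n' h
    by_contra hne
    have hne' : n.1 ≠ n'.1 := fun h => hne (Subtype.ext h)
    rcases lt_or_gt_of_ne hne' with hlt | hlt
    · apply gam_incompat hlt
      rw [← hf n (n.1 + 1) (by omega), ← hf n' (n.1 + 1) (by omega), h]
    · apply gam_incompat hlt
      rw [← hf n' (n'.1 + 1) (by omega), ← hf n (n'.1 + 1) (by omega), h]
  have := Fintype.card_le_of_injective f hinj
  simpa using this

/-- the bijection between the variables of `χ(x₁,x₂;y)` and a twice extended family -/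
def twoVar (m : ℕ) : Fin 2 ⊕ Fin m ≃ Option (Option (Fin m)) where
  toFun := fun x => match x with
    | Sum.inl i => if i = 0 then some none else none
    | Sum.inr i => some (some i)
  invFun := fun o => match o with
    | none => Sum.inl 1
    | some none => Sum.inl 0
    | some (some i) => Sum.inr i
  left_inv := by
    rintro (i | i)
    · fin_cases i <;> rfl
    · rfl
  right_inv := by
    rintro (_ | _ | i) <;> rfl

lemma elim_eq_cons2 {m : ℕ} (x : Fin 2 → Y) (a : Fin m → Y) :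
    Sum.elim x a = cons (cons a (x 0)) (x 1) ∘ twoVar m := by
  funext z
  rcases z with i | i
  · fin_cases i <;> rfl
  · rfl

lemma val_cases {ι : Type} [Fintype ι] {a : ι → Y} {B : ℕ} (hB : ∀ i, (a i).h ≤ B) (p : Sym ι) :
    val a p = ⊤ ∨ ∃ m : ℕ, m ≤ B ∧ val a p = m := by
  cases p with
  | zero => exact Or.inr ⟨0, Nat.zero_le _, rfl⟩
  | ht i => exact Or.inr ⟨_, hB i, rfl⟩
  | comb ε =>
    by_cases h : ∃ i, ε i ≠ 0
    · obtain ⟨i, hi⟩ := h
      have h1 : v a ε ≤ (a i).h := v_fin hi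
      obtain ⟨m, hm⟩ := ENat.ne_top_iff_exists.mp (ne_top_of_le_ne_top (ENat.natCast_ne_top _) h1)
      refine Or.inr ⟨m, ?_, hm.symm⟩
      rw [← hm] at h1
      have : m ≤ (a i).h := by exact_mod_cast h1
      exact this.trans (hB i)
    · left
      push Not at h
      have h2 : ∀ n : ℕ, (n : ℕ∞) ≤ v a ε := by
        intro n
        rw [le_v]
        exact ⟨fun i hi => absurd (h i) hi, fun j _ => by simp [h]⟩
      change v a ε = ⊤
      by_contra hne
      obtain ⟨m, hm⟩ := ENat.ne_top_iff_exists.mp hne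
      have := h2 (m + 1)
      rw [← hm] at this
      norm_cast at this
      omega

lemma cmp_far {N : ℕ} {u : ℕ∞} {B t t' : ℕ} (hu : u = ⊤ ∨ ∃ m : ℕ, m ≤ B ∧ u = m)
    (ht : B + N < t) (ht' : B + N < t') : Cmp N u u t t' := by
  intro c hc
  rcases hu with rfl | ⟨m, hm, rfl⟩
  · simp
  · norm_cast
    omega

/-- Constancy in the torsor tree -/
lemma const_Y {m : ℕ} (χ : L.Formula (Fin 2 ⊕ Fin m)) (d : Fin m → Y) (n : ℕ) (hn : ¬ Hit d n) :
    ∃ B : ℕ, ∀ x x' : Fin 2 → Y, PY (x 0) (x 1) (gam n) (zer (n + 2)) → B < (x 0).h →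
      PY (x' 0) (x' 1) (gam n) (zer (n + 2)) → B < (x' 0).h →
      (χ.Realize (Sum.elim x d) ↔ χ.Realize (Sum.elim x' d)) := by
  obtain ⟨N, hN⟩ := invariance' χ
  obtain ⟨B, hB1, hB2⟩ : ∃ B : ℕ, (∀ i, (d i).h ≤ B) ∧ n + 2 ≤ B := by
    refine ⟨(Finset.univ.sup (fun i => (d i).h)) + (n + 2), fun i => ?_, by omega⟩
    have := Finset.le_sup (f := fun i => (d i).h) (Finset.mem_univ i)
    omega
  refine ⟨B + N, ?_⟩
  intro x x' hx hxB hx' hxB'
  rw [elim_eq_cons2, elim_eq_cons2]
  apply hN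
  apply Iso.equiv
  -- first variable
  have step1 : Iso N (cons d (x 0)) (cons d (x' 0)) := by
    refine iso_ext (fun p q _ _ => fun c _ => ⟨Iff.rfl, Iff.rfl⟩) ?_ ?_
    · intro p _
      exact cmp_far (val_cases hB1 p) hxB hxB'
    · intro δ hδ
      obtain ⟨i, hi⟩ := odd_exists hδ
      have := hB1 i
      omega
  have hodd0 : ∀ (y : Y), B < y.h → ∀ ε, ¬ Odd d y.h ε := by
    intro y hy ε hε
    obtain ⟨i, hi⟩ := odd_exists hε
    have := hB1 i
    omega
  obtain ⟨hx1, _, _, hx2⟩ := hx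
  obtain ⟨hx1', _, _, hx2'⟩ := hx'
  -- second variable
  refine iso_ext step1 ?_ ?_
  · intro p hp
    have := step1 p (.ht none) hp trivial
    simp only [val, cons, Option.elim_none] at this
    rw [hx1, hx1'] at this
    exact this
  · intro δ hδ p hp
    rcases opt_cases δ with hδz | hδo
    · exfalso
      rw [hδz] at hδ
      have h1 := hδ (x 1).h
      rw [tot_zro, if_pos rfl, tot_eq_zero] at h1
      · exact absurd h1 (by decide)
      · intro i hi
        have := hB1 i
        omega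
    rw [hδo]
    set ε := fun i => δ (some i) with hε
    have key : ∀ p q r s : ZMod 2, p + q = r → q + (p + s) = r + s := by
      intro p q r s h
      rw [← h]; ring
    -- the bits
    have hbit : ∀ y : Fin 2 → Y, (∀ i < n + 2, (y 0).w i + (y 1).w i =
        (gam n).w i + (zer (n + 2)).w i) → ∀ i < n + 2,
        (y 1).w i + ∑ o, one ε o * ((cons d (y 0)) o).w i = (gam n).w i + G d ε i := by
      intro y hy i hi
      rw [Fintype.sum_option]
      have h1 := hy i hi
      have h2 : (zer (n + 2)).w i = 0 := rfl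
      rw [h2, add_zero] at h1
      rw [← h1]
      change (y 1).w i + (1 * (y 0).w i + G d ε i) = _
      ring
    have hmem : ∀ y : Fin 2 → Y, (∀ i < n + 2, (y 0).w i + (y 1).w i =
        (gam n).w i + (zer (n + 2)).w i) → B + N < (y 0).h → (y 0).h = (y 1).h →
        ∀ s : ℕ, (s : ℕ∞) ≤ W (cons d (y 0)) (y 1) (one ε) ↔
          s < n + 2 ∧ (∀ i, ε i ≠ 0 → s ≤ (d i).h) ∧ ∀ i < s, (gam n).w i + G d ε i = 0 := by
      intro y hy hyB hyh s
      have hlow : ∀ s : ℕ, (s : ℕ∞) ≤ W (cons d (y 0)) (y 1) (one ε) → s ≤ n + 2 →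
          (∀ i, ε i ≠ 0 → s ≤ (d i).h) ∧ ∀ i < s, (gam n).w i + G d ε i = 0 := by
        intro s hs hs2
        rw [le_W] at hs
        refine ⟨fun i hi => hs.2.1 (some i) hi, fun i hi => ?_⟩
        rw [← hbit y hy i (by omega)]
        exact hs.2.2 i hi
      have key3 : ∀ p q : ZMod 2, p + q = 0 → q = p := by decide
      constructor
      · intro hs
        have hs2 : s < n + 2 := by
          by_contra hcon
          have h1 : ((n + 2 : ℕ) : ℕ∞) ≤ W (cons d (y 0)) (y 1) (one ε) :=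
            le_trans (by exact_mod_cast (by omega : n + 2 ≤ s)) hs
          obtain ⟨h2, h3⟩ := hlow (n + 2) h1 le_rfl
          exact hn ⟨ε, fun i hi => key3 _ _ (h3 i hi)⟩
        exact ⟨hs2, hlow s hs hs2.le⟩
      · rintro ⟨h1, h2, h3⟩
        rw [le_W]
        refine ⟨by omega, ?_, fun i hi => ?_⟩
        · rintro (_ | i) hi
          · change s ≤ (y 0).h
            omega
          · exact h2 i hi
        · rw [hbit y hy i (by omega)]
          exact h3 i hi
    have hWW : W (cons d (x 0)) (x 1) (one ε) = W (cons d (x' 0)) (x' 1) (one ε) := by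
      apply enat_ext
      intro s
      rw [hmem x hx2 hxB hx1, hmem x' hx2' hxB' hx1']
    obtain ⟨w, hw⟩ := W_fin (cons d (x 0)) (x 1) (one ε)
    have hwn : w < n + 2 := ((hmem x hx2 hxB hx1 w).1 hw.ge).1
    rw [← hWW, hw]
    rcases classify d d (x 0) (x' 0) p hp with ⟨q, hq, e1, e2⟩ | ⟨e1, e2⟩ | ⟨ε', hε', e1, e2⟩
    · rw [e1, e2]
      exact fun c _ => ⟨Iff.rfl, Iff.rfl⟩
    · rw [e1, e2]
      exact (cmp_far (u := w) (B := B) (Or.inr ⟨w, by omega, rfl⟩) hxB hxB').symm
    · exact absurd hε' (hodd0 (x 0) (by omega) ε')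

end Pool.Agent.DpM
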