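import Mathlib
import Pool.Agent.DpM.Const

/-!
The formula does not fork over the torsor tree.
-/

namespace Pool.Agent.DpM

open FirstOrder Language Finset

universe u

section
variable {U : Type u} [L.Structure U]

/-- `x` is a pair of the same length extending `g + o`, longer than `y` -/
def Far (g o y : U) (x : Fin 2 → U) : Prop := PU (x 0) (x 1) g o ∧ ¬ PU y y (x 0) (x 0)

/-- `χ(x;d)` is constant on the long pairs extending `g + o` -/
def ConstN {m : ℕ} (χ : L.Formula (Fin 2 ⊕ Fin m)) (g o : U) (d : Fin m → U) : Prop :=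
  ∃ y : U, ∀ x x' : Fin 2 → U, Far g o y x → Far g o y x' →
    (χ.Realize (Sum.elim x d) ↔ χ.Realize (Sum.elim x' d))

/-- `χ(x;d)` holds for all long pairs extending `g + o` -/
def AllN {m : ℕ} (χ : L.Formula (Fin 2 ⊕ Fin m)) (g o : U) (d : Fin m → U) : Prop :=
  ∃ y : U, ∀ x : Fin 2 → U, Far g o y x → χ.Realize (Sum.elim x d)

end

/-- formula for `Far`, with the variables `x` taken from a given place -/
def farF {α : Type} (g o y : α) (x : Fin 2 → α) : L.Formula α :=
  (atP (x 0) (x 1) g o) ⊓ (atP y y (x 0) (x 0)).not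

section
variable {U : Type u} [L.Structure U]

lemma realize_farF {α : Type} (g o y : α) (x : Fin 2 → α) (c : α → U) :
    (farF g o y x).Realize c ↔ Far (c g) (c o) (c y) (c ∘ x) := by
  unfold farF Far
  simp [Formula.realize_inf, Formula.realize_not]

end

/-- formula for `ConstN` -/
noncomputable def constF {m : ℕ} (χ : L.Formula (Fin 2 ⊕ Fin m)) : L.Formula (Fin m ⊕ Fin 2) :=
  Formula.iExs (Fin 1) (Formula.iAlls (Fin 2 ⊕ Fin 2)
    ((farF (Sum.inl (Sum.inl (Sum.inr 0))) (Sum.inl (Sum.inl (Sum.inr 1))) (Sum.inl (Sum.inr 0))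
        (fun i => Sum.inr (Sum.inl i))).imp
      ((farF (Sum.inl (Sum.inl (Sum.inr 0))) (Sum.inl (Sum.inl (Sum.inr 1))) (Sum.inl (Sum.inr 0))
        (fun i => Sum.inr (Sum.inr i))).imp
        (Formula.iff (χ.relabel (Sum.elim (fun i => Sum.inr (Sum.inl i))
            (fun i => Sum.inl (Sum.inl (Sum.inl i)))))
          (χ.relabel (Sum.elim (fun i => Sum.inr (Sum.inr i))
            (fun i => Sum.inl (Sum.inl (Sum.inl i)))))))))

/-- formula for `AllN` -/
noncomputable def allF {m : ℕ} (χ : L.Formula (Fin 2 ⊕ Fin m)) : L.Formula (Fin m ⊕ Fin 2) :=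
  Formula.iExs (Fin 1) (Formula.iAlls (Fin 2)
    ((farF (Sum.inl (Sum.inl (Sum.inr 0))) (Sum.inl (Sum.inl (Sum.inr 1))) (Sum.inl (Sum.inr 0))
        (fun i => Sum.inr i)).imp
        (χ.relabel (Sum.elim (fun i => Sum.inr i)
            (fun i => Sum.inl (Sum.inl (Sum.inl i)))))))

section
variable {U : Type u} [L.Structure U]

lemma realize_constF {m : ℕ} (χ : L.Formula (Fin 2 ⊕ Fin m)) (d : Fin m → U) (c : Fin 2 → U) :
    (constF χ).Realize (Sum.elim d c) ↔ ConstN χ (c 0) (c 1) d := by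
  unfold constF ConstN
  rw [Formula.realize_iExs]
  simp only [Formula.realize_iAlls, Formula.realize_imp, realize_farF, Formula.realize_iff,
    Formula.realize_relabel]
  constructor
  · rintro ⟨y, hy⟩
    refine ⟨y 0, fun x x' h h' => ?_⟩
    have := hy (Sum.elim x x') h h'
    convert this using 2 <;> (funext z; rcases z with z | z <;> rfl)
  · rintro ⟨y, hy⟩
    refine ⟨fun _ => y, fun x h h' => ?_⟩
    have := hy (fun i => x (Sum.inl i)) (fun i => x (Sum.inr i)) h h'
    convert this using 2 <;> (funext z; rcases z with z | z <;> rfl)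

lemma realize_allF {m : ℕ} (χ : L.Formula (Fin 2 ⊕ Fin m)) (d : Fin m → U) (c : Fin 2 → U) :
    (allF χ).Realize (Sum.elim d c) ↔ AllN χ (c 0) (c 1) d := by
  unfold allF AllN
  rw [Formula.realize_iExs]
  simp only [Formula.realize_iAlls, Formula.realize_imp, realize_farF, Formula.realize_relabel]
  constructor
  · rintro ⟨y, hy⟩
    refine ⟨y 0, fun x h => ?_⟩
    have := hy x h
    convert this using 2
    funext z; rcases z with z | z <;> rfl
  · rintro ⟨y, hy⟩
    refine ⟨fun _ => y, fun x h => ?_⟩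
    have := hy x h
    convert this using 2
    funext z; rcases z with z | z <;> rfl

variable (j : Y ↪ₑ[L] U)

lemma constN_of_not_hit {m : ℕ} (χ : L.Formula (Fin 2 ⊕ Fin m)) (d : Fin m → Y) (n : ℕ)
    (hn : ¬ Hit d n) : ConstN χ (gam n) (zer (n + 2)) d := by
  obtain ⟨B, hB⟩ := const_Y χ d n hn
  refine ⟨zer B, fun x x' h h' => ?_⟩
  have h1 := h.2
  have h2 := h'.2
  rw [PU_Y, PY_self] at h1 h2
  change ¬ ((x 0).h ≤ B) at h1
  change ¬ ((x' 0).h ≤ B) at h2
  exact hB x x' h.1 (by omega) h'.1 (by omega)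

lemma constN_U {m : ℕ} (χ : L.Formula (Fin 2 ⊕ Fin m)) (S : Finset ℕ)
    (hS : Fintype.card (Fin m → ZMod 2) < S.card) (d : Fin m → U) :
    ∃ n ∈ S, ConstN χ (j (gam n)) (j (zer (n + 2))) d := by
  have := (transfer_all j (α := S × Fin 2) (β := Fin m)
    (Formula.iSup (fun n : S => (constF χ).relabel (Sum.elim (fun i => Sum.inr i)
      (fun k => Sum.inl (n, k)))))
    (fun q => ![gam q.1, zer (q.1 + 2)] q.2)).2 (by
    intro d
    rw [Formula.realize_iSup]
    by_contra hcon
    push Not at hcon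
    have h1 : ∀ n ∈ S, Hit d n := by
      intro n hn
      by_contra hhit
      apply hcon ⟨n, hn⟩
      rw [Formula.realize_relabel]
      have h2 := (realize_constF χ d ![gam n, zer (n + 2)]).2 (constN_of_not_hit χ d n hhit)
      convert h2 using 1
      funext z
      rcases z with z | z <;> rfl
    have := hit_bound d S h1
    omega) d
  rw [Formula.realize_iSup] at this
  obtain ⟨n, hn⟩ := this
  refine ⟨n.1, n.2, ?_⟩
  rw [Formula.realize_relabel] at hn
  have h2 := (realize_constF χ d ![j (gam n.1), j (zer (n.1 + 2))]).1 (by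
    convert hn using 1
    funext z
    rcases z with z | z
    · rfl
    · fin_cases z <;> rfl)
  exact h2

lemma bad_finite {m : ℕ} (χ : L.Formula (Fin 2 ⊕ Fin m)) (d : Fin m → U) :
    {n : ℕ | ¬ ConstN χ (j (gam n)) (j (zer (n + 2))) d}.Finite := by
  by_contra hinf
  obtain ⟨S, hS1, hS2⟩ := Set.Infinite.exists_subset_card_eq hinf
    (Fintype.card (Fin m → ZMod 2) + 1)
  obtain ⟨n, hn1, hn2⟩ := constN_U j χ S (by omega) d
  exact hS1 hn1 hn2

/-- there are long pairs -/
lemma exists_far (n : ℕ) {κ : Type} [Finite κ] (y : κ → U) :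
    ∃ x : Fin 2 → U, ∀ k, Far (j (gam n)) (j (zer (n + 2))) (y k) x ∧
      PU (x 0) (x 1) (j wone) (j (zer 1)) := by
  have := (transfer_all j (α := Fin 4) (β := κ)
    (Formula.iExs (Fin 2) (Formula.iInf (fun k : κ =>
      (farF (Sum.inl (Sum.inl 0)) (Sum.inl (Sum.inl 1)) (Sum.inl (Sum.inr k))
        (fun i => Sum.inr i)) ⊓ (atP (Sum.inr 0) (Sum.inr 1) (Sum.inl (Sum.inl 2))
          (Sum.inl (Sum.inl 3))))))
    ![gam n, zer (n + 2), wone, zer 1]).2 (by
    intro y
    rw [Formula.realize_iExs]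
    cases nonempty_fintype κ
    obtain ⟨B, hB1, hB2⟩ : ∃ B : ℕ, (∀ i, (y i).h < B) ∧ n + 2 ≤ B := by
      refine ⟨(Finset.univ.sup (fun i => (y i).h)) + (n + 2), fun i => ?_, by omega⟩
      have := Finset.le_sup (f := fun i => (y i).h) (Finset.mem_univ i)
      omega
    refine ⟨![⟨B, (gam n).w, fun i hi => (gam n).supp i (hB2.trans hi)⟩, zer B], ?_⟩
    rw [Formula.realize_iInf]
    intro k
    rw [Formula.realize_inf, realize_farF, realize_atP]
    simp only [Sum.elim_inl, Sum.elim_inr, PU_Y]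
    refine ⟨⟨⟨rfl, rfl, hB2, fun i _ => rfl⟩, ?_⟩, ⟨rfl, rfl, by
      change 1 ≤ B; omega, fun i hi => ?_⟩⟩
    · rw [PU_Y, PY_self]
      have := hB1 k
      change ¬ B ≤ (y k).h
      omega
    · change i < 1 at hi
      have : i = 0 := by omega
      rw [this]
      rfl) y
  rw [Formula.realize_iExs] at this
  obtain ⟨x, hx⟩ := this
  rw [Formula.realize_iInf] at hx
  refine ⟨x, fun k => ?_⟩
  have h1 := hx k
  rw [Formula.realize_inf, realize_farF, realize_atP] at h1
  exact h1

theorem not_forks (b : U) : ¬ Forks j (theta j b) := by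
  rintro ⟨n0, χ, hdiv, hcov⟩
  -- choice of n
  have hfin : (⋃ i : Fin n0, {n : ℕ | ¬ ConstN (χ i).φ (j (gam n)) (j (zer (n + 2))) (χ i).b}).Finite :=
    Set.finite_iUnion (fun i => bad_finite j (χ i).φ (χ i).b)
  obtain ⟨n, hn⟩ := hfin.infinite_compl.nonempty
  have hconst : ∀ i, ConstN (χ i).φ (j (gam n)) (j (zer (n + 2))) (χ i).b := by
    intro i
    by_contra hcon
    exact hn (Set.mem_iUnion.mpr ⟨i, hcon⟩)
  choose y hy using hconst
  -- a long pair
  obtain ⟨x, hx⟩ := exists_far j n (κ := Option (Fin n0)) (fun o => o.elim b y)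
  have hhold : (theta j b).Holds x := by
    rw [theta_holds]
    exact ⟨(hx none).2, (hx none).1.2⟩
  obtain ⟨i, hi⟩ := hcov x hhold
  have hall : AllN (χ i).φ (j (gam n)) (j (zer (n + 2))) (χ i).b :=
    ⟨y i, fun x' hx' => (hy i x x' (hx (some i)).1 hx').1 hi⟩
  obtain ⟨q, d, hd, hq⟩ := hdiv i
  have hall' : ∀ k, AllN (χ i).φ (j (gam n)) (j (zer (n + 2))) (d k) := by
    intro k
    have h1 := hd k 2 (allF (χ i).φ) ![gam n, zer (n + 2)]
    have e : (j ∘ ![gam n, zer (n + 2)] : Fin 2 → U) = ![j (gam n), j (zer (n + 2))] := by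
      funext z; fin_cases z <;> rfl
    rw [e, realize_allF, realize_allF] at h1
    exact h1.2 hall
  choose y' hy' using hall'
  obtain ⟨x', hx'⟩ := exists_far j n (κ := Fin q) (fun k => y' k)
  apply hq (Finset.range q) (Finset.card_range q)
  refine ⟨x', fun k hk => ?_⟩
  rw [Finset.mem_range] at hk
  exact hy' k x' (hx' ⟨k, hk⟩).1

end

end Pool.Agent.DpM
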