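import Mathlib
import Pool.Agent.DpM.NonFork

/-!
Existence of proper elementary extensions of the torsor tree.
-/

namespace Pool.Agent.DpM

open FirstOrder Language Cardinal

universe u

instance : Infinite Y := Infinite.of_injective zer (fun s t h => by
  have := congrArg Y.h h
  exact this)

instance : Countable L.Symbols := by
  have h1 : ∀ l, IsEmpty (L.Functions l) := fun l => ⟨fun f => Empty.elim f⟩
  have h2 : ∀ l, Countable (L.Relations l) := by
    intro l
    have : Subsingleton (L.Relations l) := ⟨fun r s => by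
      cases r
      cases s
      rfl⟩
    infer_instance
  have h3 : IsEmpty (Σ l, L.Functions l) := ⟨fun x => (h1 x.1).false x.2⟩
  change Countable ((Σ l, L.Functions l) ⊕ (Σ l, L.Relations l))
  infer_instance

theorem exists_proper_extension :
    ∃ (U : Type u) (_ : L.Structure U) (j : Y ↪ₑ[L] U), ∃ b : U, b ∉ Set.range j := by
  have hL : L.card ≤ 2 ^ #Y := by
    have h1 : L.card ≤ ℵ₀ := by
      rw [Language.card]
      exact mk_le_aleph0
    exact (h1.trans (aleph0_le_mk Y)).trans (cantor _).le
  obtain ⟨N, ⟨j⟩, hN⟩ := exists_elementaryEmbedding_card_eq_of_ge L Y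
    (Cardinal.lift.{u} (2 ^ #Y)) (by
      rw [Cardinal.lift_uzero]
      exact Cardinal.lift_le.{u}.2 hL) (by
      rw [Cardinal.lift_uzero]
      exact Cardinal.lift_le.{u}.2 (cantor #Y).le)
  refine ⟨N, N.str, j, ?_⟩
  by_contra hcon
  push Not at hcon
  have h0 : Set.range j = Set.univ := Set.eq_univ_of_forall hcon
  have h1 : Cardinal.lift.{0} #(Set.range j) ≤ Cardinal.lift.{u} #Y :=
    Cardinal.mk_range_le_lift
  rw [h0, Cardinal.mk_univ, hN, Cardinal.lift_uzero, Cardinal.lift_le] at h1
  exact absurd h1 (not_le.mpr (cantor #Y))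

end Pool.Agent.DpM
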